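import Mathlib

set_option autoImplicit false

open MeasureTheory Set

namespace Pool.Agent.MP_2c685a_gt

lemma exp_taylor {A B m : ℝ} (hA : m ≤ A) (hB : m ≤ B) :
    |Real.exp (-A) - Real.exp (-B) + (A - B) * Real.exp (-B)| ≤ (A - B) ^ 2 * Real.exp (-m) := by
  have hAm : Real.exp (-A) ≤ Real.exp (-m) := Real.exp_le_exp.2 (by linarith)
  have hBm : Real.exp (-B) ≤ Real.exp (-m) := Real.exp_le_exp.2 (by linarith)
  have hA0 := Real.exp_pos (-A)
  have hB0 := Real.exp_pos (-B)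
  have hAB : Real.exp (-A) = Real.exp (-B) * Real.exp (-(A - B)) := by
    rw [← Real.exp_add]; congr 1; ring
  have hBA : Real.exp (-B) = Real.exp (-A) * Real.exp (A - B) := by
    rw [← Real.exp_add]; congr 1; ring
  set x := A - B with hx
  have l1 : -x + 1 ≤ Real.exp (-x) := Real.add_one_le_exp _
  have l2 : x + 1 ≤ Real.exp x := Real.add_one_le_exp _
  have hprod : Real.exp x * Real.exp (-x) = 1 := by rw [← Real.exp_add]; simp
  have hlow : 0 ≤ Real.exp (-A) - Real.exp (-B) + x * Real.exp (-B) := by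
    rw [hAB]; nlinarith
  rw [abs_of_nonneg hlow]
  rcases le_total 0 x with h | h
  · have : Real.exp (-x) ≤ 1 - x + x ^ 2 := by
      have h1 : Real.exp (-x) * (1 + x) ≤ 1 := by nlinarith [Real.exp_pos (-x)]
      by_contra hcon
      push Not at hcon
      have h2 : (1 - x + x ^ 2) * (1 + x) < Real.exp (-x) * (1 + x) := by
        apply mul_lt_mul_of_pos_right hcon; linarith
      nlinarith [pow_nonneg h 3]
    calc Real.exp (-A) - Real.exp (-B) + x * Real.exp (-B)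
        = Real.exp (-B) * (Real.exp (-x) - 1 + x) := by rw [hAB]; ring
      _ ≤ Real.exp (-B) * x ^ 2 := by gcongr; linarith
      _ ≤ Real.exp (-m) * x ^ 2 := by gcongr
      _ = _ := by ring
  · have : 1 - (1 - x) * Real.exp x ≤ x ^ 2 := by nlinarith
    calc Real.exp (-A) - Real.exp (-B) + x * Real.exp (-B)
        = Real.exp (-A) * (1 - (1 - x) * Real.exp x) := by rw [hBA]; ring
      _ ≤ Real.exp (-A) * x ^ 2 := by gcongr
      _ ≤ Real.exp (-m) * x ^ 2 := by gcongr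
      _ = _ := by ring

lemma slope_diff_aux {f : ℝ → ℝ} {L : ℝ} (h1 : ConvexOn ℝ univ f)
    (h2 : ConvexOn ℝ univ (fun η => L * η ^ 2 - f η)) {η t : ℝ} (hη : η ≠ 0) (ht : t ≠ 0)
    (h : t ≤ η) : |(f η - f 0) / η - (f t - f 0) / t| ≤ L * |η - t| := by
  have a1 := h1.secant_mono (a := 0) (mem_univ _) (mem_univ t) (mem_univ η) ht hη h
  have a2 := h2.secant_mono (a := 0) (mem_univ _) (mem_univ t) (mem_univ η) ht hη h
  simp only [sub_zero] at a1 a2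
  have e1 : (L * t ^ 2 - f t - (L * 0 ^ 2 - f 0)) / t = L * t - (f t - f 0) / t := by
    field_simp; ring
  have e2 : (L * η ^ 2 - f η - (L * 0 ^ 2 - f 0)) / η = L * η - (f η - f 0) / η := by
    field_simp; ring
  rw [e1, e2] at a2
  rw [abs_of_nonneg (by linarith), abs_of_nonneg (by linarith)]
  linarith

lemma slope_diff {f : ℝ → ℝ} {L : ℝ} (h1 : ConvexOn ℝ univ f)
    (h2 : ConvexOn ℝ univ (fun η => L * η ^ 2 - f η)) {η t : ℝ} (hη : η ≠ 0) (ht : t ≠ 0) :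
    |(f η - f 0) / η - (f t - f 0) / t| ≤ L * |η - t| := by
  rcases le_total t η with h | h
  · exact slope_diff_aux h1 h2 hη ht h
  · rw [abs_sub_comm, abs_sub_comm η t]
    exact slope_diff_aux h1 h2 ht hη h

lemma inv_expand {a α : ℝ} (ha : 0 < a) (h : |α| ≤ a / 2) :
    |1 / (a + α) - 1 / a + α / a ^ 2 - α ^ 2 / a ^ 3| ≤ 2 * |α| ^ 3 / a ^ 4 := by
  have h1 : a / 2 ≤ a + α := by have := (abs_le.1 h).1; linarith
  have h2 : 0 < a + α := by linarith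
  have : 1 / (a + α) - 1 / a + α / a ^ 2 - α ^ 2 / a ^ 3 = -(α ^ 3) / (a ^ 3 * (a + α)) := by
    field_simp; ring
  rw [this, abs_div, abs_neg, abs_pow, abs_of_pos (by positivity : 0 < a ^ 3 * (a + α))]
  calc |α| ^ 3 / (a ^ 3 * (a + α)) ≤ |α| ^ 3 / (a ^ 3 * (a / 2)) := by gcongr
    _ = 2 * |α| ^ 3 / a ^ 4 := by field_simp

lemma inv_expand2 {a₀ a s l Φ K : ℝ} (ha : 0 < a₀) (hs : |s| ≤ 1) (hl : |l| ≤ K) (hΦ : |Φ| ≤ K)
    (hsm : 3 * K * |s| ≤ a₀ / 2) (h : |a - a₀ + s * l + |s| * Φ| ≤ K * s ^ 2) :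
    |1 / a - 1 / a₀ + (a - a₀) / a₀ ^ 2 - (s * l + |s| * Φ) ^ 2 / a₀ ^ 3|
      ≤ (54 * K ^ 3 / a₀ ^ 4 + 5 * K ^ 2 / a₀ ^ 3) * |s| ^ 3 := by
  have hK : 0 ≤ K := le_trans (abs_nonneg _) hl
  have hs0 := abs_nonneg s
  set u := s * l + |s| * Φ with hu
  set e := a - a₀ + s * l + |s| * Φ with he
  have hss : s ^ 2 = |s| ^ 2 := (sq_abs s).symm
  have hu1 : |u| ≤ 2 * K * |s| := by
    calc |u| ≤ |s * l| + |(|s| * Φ)| := abs_add_le _ _
      _ = |s| * |l| + |s| * |Φ| := by rw [abs_mul, abs_mul, abs_abs]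
      _ ≤ |s| * K + |s| * K := by gcongr
      _ = _ := by ring
  have he1 : |e| ≤ K * |s| := by
    calc |e| ≤ K * |s| ^ 2 := by rw [← hss]; exact h
      _ = K * |s| * |s| := by ring
      _ ≤ K * |s| * 1 := by gcongr
      _ = _ := by ring
  have hα : a - a₀ = e - u := by rw [he, hu]; ring
  have hα1 : |a - a₀| ≤ 3 * K * |s| := by
    rw [hα]
    calc |e - u| ≤ |e| + |u| := abs_sub _ _
      _ ≤ _ := by linarith
  have h1 := inv_expand ha (le_trans hα1 hsm)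
  rw [show a₀ + (a - a₀) = a by ring] at h1
  have h2 : |(a - a₀) ^ 2 - u ^ 2| ≤ 5 * K ^ 2 * |s| ^ 3 := by
    have : (a - a₀) ^ 2 - u ^ 2 = e * (e - 2 * u) := by rw [hα]; ring
    rw [this, abs_mul]
    have h3 : |e - 2 * u| ≤ 5 * K * |s| := by
      calc |e - 2 * u| ≤ |e| + |2 * u| := abs_sub _ _
        _ = |e| + 2 * |u| := by rw [abs_mul]; norm_num
        _ ≤ _ := by linarith
    calc |e| * |e - 2 * u| ≤ (K * |s| ^ 2) * (5 * K * |s|) := by
          gcongr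
          rw [← hss]; exact h
      _ = _ := by ring
  have h4 : 2 * |a - a₀| ^ 3 / a₀ ^ 4 ≤ 54 * K ^ 3 / a₀ ^ 4 * |s| ^ 3 := by
    calc 2 * |a - a₀| ^ 3 / a₀ ^ 4 ≤ 2 * (3 * K * |s|) ^ 3 / a₀ ^ 4 := by gcongr
      _ = _ := by ring
  have h5 : |((a - a₀) ^ 2 - u ^ 2) / a₀ ^ 3| ≤ 5 * K ^ 2 / a₀ ^ 3 * |s| ^ 3 := by
    rw [abs_div, abs_of_pos (by positivity : 0 < a₀ ^ 3)]
    calc _ ≤ 5 * K ^ 2 * |s| ^ 3 / a₀ ^ 3 := by gcongr
      _ = _ := by ring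
  have : 1 / a - 1 / a₀ + (a - a₀) / a₀ ^ 2 - u ^ 2 / a₀ ^ 3
      = (1 / a - 1 / a₀ + (a - a₀) / a₀ ^ 2 - (a - a₀) ^ 2 / a₀ ^ 3)
        + ((a - a₀) ^ 2 - u ^ 2) / a₀ ^ 3 := by ring
  rw [this]
  refine le_trans (abs_add_le _ _) ?_
  linarith

/-- a fourth order difference killing constants, odd functions and the absolute value -/
def dd (f : ℝ → ℝ) (ε : ℝ) : ℝ := f (2 * ε) + f (-(2 * ε)) - 2 * f ε - 2 * f (-ε) + 2 * f 0

lemma dd_inv {a : ℝ → ℝ} {ε l Φ K : ℝ} (ha : 0 < a 0) (hε : 0 < ε) (hε1 : 2 * ε ≤ 1)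
    (hl : |l| ≤ K) (hΦ : |Φ| ≤ K) (hsm : 3 * K * (2 * ε) ≤ a 0 / 2)
    (h : ∀ s, ε ≤ |s| → |s| ≤ 1 → |a s - a 0 + s * l + |s| * Φ| ≤ K * s ^ 2) :
    |dd (fun s => 1 / a s) ε + dd a ε / a 0 ^ 2 - 4 * ε ^ 2 * (l ^ 2 + Φ ^ 2) / a 0 ^ 3|
      ≤ 20 * (54 * K ^ 3 / a 0 ^ 4 + 5 * K ^ 2 / a 0 ^ 3) * ε ^ 3 := by
  have hK : 0 ≤ K := le_trans (abs_nonneg _) hl
  have p1 : |2 * ε| = 2 * ε := abs_of_pos (by linarith)
  have p2 : |-(2 * ε)| = 2 * ε := by rw [abs_neg, p1]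
  have p3 : |ε| = ε := abs_of_pos hε
  have p4 : |-ε| = ε := by rw [abs_neg, p3]
  have hsm' : 3 * K * ε ≤ a 0 / 2 := by nlinarith
  have h1 := inv_expand2 (s := 2 * ε) ha (by rw [p1]; exact hε1) hl hΦ (by rw [p1]; exact hsm)
    (h _ (by rw [p1]; linarith) (by rw [p1]; exact hε1))
  have h2 := inv_expand2 (s := -(2 * ε)) ha (by rw [p2]; exact hε1) hl hΦ (by rw [p2]; exact hsm)
    (h _ (by rw [p2]; linarith) (by rw [p2]; exact hε1))
  have h3 := inv_expand2 (s := ε) ha (by rw [p3]; linarith) hl hΦ (by rw [p3]; exact hsm')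
    (h _ (by rw [p3]) (by rw [p3]; linarith))
  have h4 := inv_expand2 (s := -ε) ha (by rw [p4]; linarith) hl hΦ (by rw [p4]; exact hsm')
    (h _ (by rw [p4]) (by rw [p4]; linarith))
  rw [p1] at h1
  rw [p2] at h2
  rw [p3] at h3
  rw [p4] at h4
  set M := 54 * K ^ 3 / a 0 ^ 4 + 5 * K ^ 2 / a 0 ^ 3
  have : dd (fun s => 1 / a s) ε + dd a ε / a 0 ^ 2 - 4 * ε ^ 2 * (l ^ 2 + Φ ^ 2) / a 0 ^ 3
      = (1 / a (2 * ε) - 1 / a 0 + (a (2 * ε) - a 0) / a 0 ^ 2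
          - (2 * ε * l + 2 * ε * Φ) ^ 2 / a 0 ^ 3)
        + (1 / a (-(2 * ε)) - 1 / a 0 + (a (-(2 * ε)) - a 0) / a 0 ^ 2
          - (-(2 * ε) * l + 2 * ε * Φ) ^ 2 / a 0 ^ 3)
        - 2 * (1 / a ε - 1 / a 0 + (a ε - a 0) / a 0 ^ 2 - (ε * l + ε * Φ) ^ 2 / a 0 ^ 3)
        - 2 * (1 / a (-ε) - 1 / a 0 + (a (-ε) - a 0) / a 0 ^ 2
          - (-ε * l + ε * Φ) ^ 2 / a 0 ^ 3) := by
    simp only [dd]; ring
  rw [this]
  rw [abs_le] at h1 h2 h3 h4 ⊢
  have e8 : M * (2 * ε) ^ 3 = 8 * (M * ε ^ 3) := by ring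
  have e20 : 20 * M * ε ^ 3 = 20 * (M * ε ^ 3) := by ring
  rw [e8] at h1 h2
  rw [e20]
  constructor <;> linarith [h1.1, h1.2, h2.1, h2.2, h3.1, h3.2, h4.1, h4.2]

variable {U : Type*} [NormedAddCommGroup U]

/-- the hypotheses on the exponent -/
structure Good (H : ℝ → U → ℝ) (κ : U → ℝ) (c L : ℝ) : Prop where
  cpos : 0 < c
  Lnn : 0 ≤ L
  hc : Continuous (Function.uncurry H)
  κc : Continuous κ
  conv : ∀ y, ConvexOn ℝ univ (fun η => H η y)
  conc : ∀ y, ConvexOn ℝ univ (fun η => L * η ^ 2 - H η y)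
  low : ∀ η y, c * ‖y‖ ^ 2 ≤ H η y
  up : ∀ η y, H η y ≤ L * (η ^ 2 + ‖y‖ ^ 2)
  κ0 : ∀ y, 0 ≤ κ y
  κ1 : ∀ y, κ y ≤ L * ‖y‖

/-- density -/
noncomputable def dens (H : ℝ → U → ℝ) (κ : U → ℝ) (η : ℝ) (y : U) : ℝ :=
  Real.exp (-(H η y + |η| * κ y))

/-- slope -/
noncomputable def slp (H : ℝ → U → ℝ) (t : ℝ) (y : U) : ℝ := (H t y - H 0 y) / t

/-- weight -/
noncomputable def wt (c : ℝ) (y : U) : ℝ := (1 + ‖y‖) ^ 6 * Real.exp (-(c * ‖y‖ ^ 2))

lemma wt_nonneg (c : ℝ) (y : U) : 0 ≤ wt c y := by unfold wt; positivity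

namespace Good

variable {H : ℝ → U → ℝ} {κ : U → ℝ} {c L : ℝ}

lemma slp_diff (g : Good H κ c L) (y : U) {η t : ℝ} (hη : η ≠ 0) (ht : t ≠ 0) :
    |slp H η y - slp H t y| ≤ L * |η - t| :=
  slope_diff (g.conv y) (g.conc y) hη ht

lemma slp_bd (g : Good H κ c L) (y : U) {t : ℝ} (ht : t ≠ 0) :
    |slp H t y| ≤ L * (2 + |t| + ‖y‖ ^ 2) := by
  have h1 := g.slp_diff y ht one_ne_zero
  have hc := g.cpos
  have hL := g.Lnn
  have h2 : |slp H 1 y| ≤ L * (1 + ‖y‖ ^ 2) := by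
    unfold slp
    have a1 := g.low 1 y
    have a2 := g.low 0 y
    have a3 := g.up 1 y
    have a4 := g.up 0 y
    have : 0 ≤ c * ‖y‖ ^ 2 := by positivity
    rw [div_one, abs_le]
    constructor <;> nlinarith [sq_nonneg ‖y‖]
  have h3 : |t - 1| ≤ |t| + 1 := by simpa using abs_sub t 1
  have h4 : |slp H t y| ≤ |slp H t y - slp H 1 y| + |slp H 1 y| := by
    simpa using abs_add_le (slp H t y - slp H 1 y) (slp H 1 y)
  have h5 : L * |t - 1| ≤ L * (|t| + 1) := by gcongr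
  nlinarith

omit [NormedAddCommGroup U] in
lemma dens_zero (H : ℝ → U → ℝ) (κ : U → ℝ) (y : U) : dens H κ 0 y = Real.exp (-(H 0 y)) := by
  simp [dens]

lemma dens_le (g : Good H κ c L) (η : ℝ) (y : U) :
    dens H κ η y ≤ Real.exp (-(c * ‖y‖ ^ 2)) := by
  unfold dens
  apply Real.exp_le_exp.2
  have := g.low η y
  have := mul_nonneg (abs_nonneg η) (g.κ0 y)
  linarith

omit [NormedAddCommGroup U] in
lemma dens_pos (η : ℝ) (y : U) : 0 < dens H κ η y := Real.exp_pos _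

lemma dens_cont (g : Good H κ c L) : Continuous (Function.uncurry (dens H κ)) := by
  have h1 := g.hc
  have h2 := g.κc
  have : Function.uncurry (dens H κ) = fun z : ℝ × U =>
      Real.exp (-(Function.uncurry H z + |z.1| * κ z.2)) := by
    funext z; rfl
  rw [this]
  fun_prop

lemma slp_cont (g : Good H κ c L) (t : ℝ) : Continuous (slp H t) := by
  have h1 : Continuous (fun y => H t y) := g.hc.comp (Continuous.prodMk_right t)
  have h2 : Continuous (fun y => H 0 y) := g.hc.comp (Continuous.prodMk_right 0)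
  unfold slp
  fun_prop

lemma pointwise (g : Good H κ c L) (y : U) {η t : ℝ} (hη : |η| ≤ 2 * ‖y‖) (ht : 0 < t) :
    |dens H κ η y - dens H κ 0 y + (η * slp H t y + |η| * κ y) * dens H κ 0 y|
      ≤ (4 * L ^ 2 * η ^ 2 * (1 + ‖y‖) ^ 4 + L * |η| * (|η| + t)) * Real.exp (-(c * ‖y‖ ^ 2)) := by
  have hL := g.Lnn
  rcases eq_or_ne η 0 with rfl | h0
  · simp
  have hE := Real.exp_pos (-(c * ‖y‖ ^ 2))
  have hn := norm_nonneg y
  have hκ0 := g.κ0 y
  have hκ1 := g.κ1 y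
  have hη0 := abs_nonneg η
  have hA : c * ‖y‖ ^ 2 ≤ H η y + |η| * κ y := by
    have := g.low η y
    have := mul_nonneg (abs_nonneg η) (g.κ0 y)
    linarith
  have h1 := exp_taylor hA (g.low 0 y)
  have hX : H η y + |η| * κ y - H 0 y = η * slp H η y + |η| * κ y := by
    unfold slp; field_simp; ring
  rw [hX] at h1
  have h2 : |η * slp H η y + |η| * κ y| ≤ 2 * L * |η| * (1 + ‖y‖) ^ 2 := by
    have b := g.slp_bd y h0
    calc _ ≤ |η * slp H η y| + |(|η| * κ y)| := abs_add_le _ _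
      _ = |η| * |slp H η y| + |η| * κ y := by rw [abs_mul, abs_mul, abs_abs, abs_of_nonneg hκ0]
      _ ≤ |η| * (L * (2 + 2 * ‖y‖ + ‖y‖ ^ 2)) + |η| * (L * ‖y‖) := by
          gcongr
          exact le_trans b (by gcongr)
      _ = L * |η| * (2 + 3 * ‖y‖ + ‖y‖ ^ 2) := by ring
      _ ≤ L * |η| * (2 * (1 + ‖y‖) ^ 2) := by gcongr; nlinarith
      _ = _ := by ring
  have h3 : (η * slp H η y + |η| * κ y) ^ 2 ≤ 4 * L ^ 2 * η ^ 2 * (1 + ‖y‖) ^ 4 := by
    calc _ = |η * slp H η y + |η| * κ y| ^ 2 := (sq_abs _).symm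
      _ ≤ (2 * L * |η| * (1 + ‖y‖) ^ 2) ^ 2 := by gcongr
      _ = 4 * L ^ 2 * |η| ^ 2 * (1 + ‖y‖) ^ 4 := by ring
      _ = _ := by rw [sq_abs]
  have h4 : |η * (slp H t y - slp H η y) * dens H κ 0 y|
      ≤ L * |η| * (|η| + t) * Real.exp (-(c * ‖y‖ ^ 2)) := by
    have b := g.slp_diff y ht.ne' h0
    have b2 : |t - η| ≤ |η| + t := by
      have := abs_sub t η
      rw [abs_of_pos ht] at this
      linarith
    rw [abs_mul, abs_mul, abs_of_pos (dens_pos 0 y)]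
    calc |η| * |slp H t y - slp H η y| * dens H κ 0 y
        ≤ |η| * (L * (|η| + t)) * Real.exp (-(c * ‖y‖ ^ 2)) := by
          gcongr
          · exact (dens_pos 0 y).le
          · exact le_trans b (by gcongr)
          · exact g.dens_le 0 y
      _ = _ := by ring
  have h5 : dens H κ η y - dens H κ 0 y + (η * slp H t y + |η| * κ y) * dens H κ 0 y
      = (Real.exp (-(H η y + |η| * κ y)) - Real.exp (-(H 0 y))
          + (η * slp H η y + |η| * κ y) * Real.exp (-(H 0 y)))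
        + η * (slp H t y - slp H η y) * dens H κ 0 y := by
    rw [dens_zero]; unfold dens; ring
  rw [h5]
  calc _ ≤ _ := abs_add_le _ _
    _ ≤ 4 * L ^ 2 * η ^ 2 * (1 + ‖y‖) ^ 4 * Real.exp (-(c * ‖y‖ ^ 2))
        + L * |η| * (|η| + t) * Real.exp (-(c * ‖y‖ ^ 2)) := by
        gcongr
        exact le_trans h1 (by gcongr)
    _ = _ := by ring

lemma pointwise_dir (g : Good H κ c L) (y : U) {b s t : ℝ} (hb : |b| ≤ 2 * ‖y‖) (ht : 0 < t)
    (hts : t ≤ |s|) (hs : |s| ≤ 1) :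
    |dens H κ (s * b) y - dens H κ 0 y + s * (b * slp H t y * dens H κ 0 y)
        + |s| * (|b| * κ y * dens H κ 0 y)| ≤ (16 * L ^ 2 + 6 * L) * s ^ 2 * wt c y := by
  have hL := g.Lnn
  have hn := norm_nonneg y
  have hs0 := abs_nonneg s
  have hb0 := abs_nonneg b
  have hη : |s * b| ≤ |s| * (2 * ‖y‖) := by rw [abs_mul]; gcongr
  have hη' : |s * b| ≤ 2 * ‖y‖ := le_trans hη (by nlinarith)
  have h1 := g.pointwise y hη' ht
  have e : dens H κ (s * b) y - dens H κ 0 y + s * (b * slp H t y * dens H κ 0 y)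
        + |s| * (|b| * κ y * dens H κ 0 y)
      = dens H κ (s * b) y - dens H κ 0 y + (s * b * slp H t y + |s * b| * κ y) * dens H κ 0 y := by
    rw [abs_mul]; ring
  rw [e]
  refine le_trans h1 ?_
  unfold wt
  rw [← mul_assoc]
  gcongr
  set r := 1 + ‖y‖ with hr
  have hr1 : 1 ≤ r := by linarith
  have hη2 : |s * b| ≤ |s| * (2 * r) := le_trans hη (by gcongr; linarith)
  have hss : s ^ 2 = |s| ^ 2 := (sq_abs s).symm
  have q1 : (s * b) ^ 2 ≤ 4 * s ^ 2 * r ^ 2 := by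
    calc (s * b) ^ 2 = |s * b| ^ 2 := (sq_abs _).symm
      _ ≤ (|s| * (2 * r)) ^ 2 := by gcongr
      _ = _ := by rw [hss]; ring
  have q2 : |s * b| * (|s * b| + t) ≤ 6 * s ^ 2 * r ^ 6 := by
    have r2 : r ^ 2 ≤ r ^ 6 := pow_le_pow_right₀ hr1 (by norm_num)
    calc |s * b| * (|s * b| + t) ≤ (|s| * (2 * r)) * (|s| * (2 * r) + |s| * r) := by
          gcongr
          nlinarith
      _ = 6 * |s| ^ 2 * r ^ 2 := by ring
      _ ≤ 6 * |s| ^ 2 * r ^ 6 := by gcongr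
      _ = _ := by rw [hss]
  calc 4 * L ^ 2 * (s * b) ^ 2 * r ^ 4 + L * |s * b| * (|s * b| + t)
      = 4 * L ^ 2 * (s * b) ^ 2 * r ^ 4 + L * (|s * b| * (|s * b| + t)) := by ring
    _ ≤ 4 * L ^ 2 * (4 * s ^ 2 * r ^ 2) * r ^ 4 + L * (6 * s ^ 2 * r ^ 6) := by gcongr
    _ = _ := by ring

lemma pointwise_dd (g : Good H κ c L) (y : U) {a δ : ℝ} (ha : 0 ≤ a) (hδ : δ ≤ 1 / 2)
    (haδ : a ≤ δ * (2 * ‖y‖)) :
    |dd (fun η => dens H κ η y) a| ≤ (192 * L ^ 2 + 80 * L) * δ ^ 2 * wt c y := by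
  have hL := g.Lnn
  have hn := norm_nonneg y
  have hw := wt_nonneg c y
  rcases ha.eq_or_lt with rfl | ha
  · have : dd (fun η => dens H κ η y) 0 = 0 := by simp only [dd, mul_zero, neg_zero]; ring
    rw [this, abs_zero]; positivity
  have p1 : |2 * a| = 2 * a := abs_of_pos (by linarith)
  have p2 : |-(2 * a)| = 2 * a := by rw [abs_neg, p1]
  have p3 : |a| = a := abs_of_pos ha
  have p4 : |-a| = a := by rw [abs_neg, p3]
  have ha1 : a ≤ ‖y‖ := by nlinarith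
  have h1 := g.pointwise y (η := 2 * a) (by rw [p1]; linarith) ha
  have h2 := g.pointwise y (η := -(2 * a)) (by rw [p2]; linarith) ha
  have h3 := g.pointwise y (η := a) (by rw [p3]; linarith) ha
  have h4 := g.pointwise y (η := -a) (by rw [p4]; linarith) ha
  rw [p1] at h1
  rw [p2] at h2
  rw [p3] at h3
  rw [p4] at h4
  set E := Real.exp (-(c * ‖y‖ ^ 2)) with hE
  have hE0 : 0 < E := Real.exp_pos _
  set r := 1 + ‖y‖ with hr
  have hr1 : 1 ≤ r := by linarith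
  have key : |dd (fun η => dens H κ η y) a| ≤ (48 * L ^ 2 * r ^ 4 + 20 * L) * a ^ 2 * E := by
    have e : dd (fun η => dens H κ η y) a
        = (dens H κ (2 * a) y - dens H κ 0 y + (2 * a * slp H a y + 2 * a * κ y) * dens H κ 0 y)
        + (dens H κ (-(2 * a)) y - dens H κ 0 y
            + (-(2 * a) * slp H a y + 2 * a * κ y) * dens H κ 0 y)
        - 2 * (dens H κ a y - dens H κ 0 y + (a * slp H a y + a * κ y) * dens H κ 0 y)
        - 2 * (dens H κ (-a) y - dens H κ 0 y + (-a * slp H a y + a * κ y) * dens H κ 0 y) := by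
      simp only [dd]; ring
    rw [e]
    have f1 : (4 * L ^ 2 * (2 * a) ^ 2 * r ^ 4 + L * (2 * a) * (2 * a + a)) * E
        = 16 * (L ^ 2 * r ^ 4 * a ^ 2 * E) + 6 * (L * a ^ 2 * E) := by ring
    have f2 : (4 * L ^ 2 * (-(2 * a)) ^ 2 * r ^ 4 + L * (2 * a) * (2 * a + a)) * E
        = 16 * (L ^ 2 * r ^ 4 * a ^ 2 * E) + 6 * (L * a ^ 2 * E) := by ring
    have f3 : (4 * L ^ 2 * a ^ 2 * r ^ 4 + L * a * (a + a)) * E
        = 4 * (L ^ 2 * r ^ 4 * a ^ 2 * E) + 2 * (L * a ^ 2 * E) := by ring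
    have f4 : (4 * L ^ 2 * (-a) ^ 2 * r ^ 4 + L * a * (a + a)) * E
        = 4 * (L ^ 2 * r ^ 4 * a ^ 2 * E) + 2 * (L * a ^ 2 * E) := by ring
    have f5 : (48 * L ^ 2 * r ^ 4 + 20 * L) * a ^ 2 * E
        = 48 * (L ^ 2 * r ^ 4 * a ^ 2 * E) + 20 * (L * a ^ 2 * E) := by ring
    rw [f1] at h1
    rw [f2] at h2
    rw [f3] at h3
    rw [f4] at h4
    rw [f5]
    rw [abs_le] at h1 h2 h3 h4 ⊢
    constructor <;> linarith [h1.1, h1.2, h2.1, h2.2, h3.1, h3.2, h4.1, h4.2]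
  refine le_trans key ?_
  have hδ0 : 0 ≤ δ := by
    by_contra hcon
    push Not at hcon
    nlinarith
  have q1 : a ^ 2 ≤ 4 * δ ^ 2 * r ^ 2 := by
    calc a ^ 2 ≤ (δ * (2 * r)) ^ 2 := by
          gcongr
          exact le_trans haδ (by gcongr; linarith)
      _ = _ := by ring
  have r4 : 1 ≤ r ^ 4 := one_le_pow₀ hr1
  unfold wt
  calc (48 * L ^ 2 * r ^ 4 + 20 * L) * a ^ 2 * E
      ≤ (48 * L ^ 2 * r ^ 4 + 20 * L * r ^ 4) * (4 * δ ^ 2 * r ^ 2) * E := by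
        have : 20 * L ≤ 20 * L * r ^ 4 := by nlinarith
        gcongr
    _ = _ := by ring

end Good

lemma wt_integrable [NormedSpace ℝ U] [FiniteDimensional ℝ U] [MeasurableSpace U] [BorelSpace U]
    (ν : Measure U) [ν.IsAddHaarMeasure] {c : ℝ} (hc : 0 < c) : Integrable (wt c : U → ℝ) ν := by
  set d := Module.finrank ℝ U
  have h1 : Integrable (fun y : U => (1 + ‖y‖) ^ (-((d : ℝ) + 1))) ν :=
    integrable_one_add_norm (by linarith)
  have hm : Continuous (wt c : U → ℝ) := by unfold wt; fun_prop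
  refine (h1.const_mul (((d + 7).factorial : ℝ) * Real.exp (1 + 1 / (4 * c)))).mono'
    hm.aestronglyMeasurable (Filter.Eventually.of_forall fun y => ?_)
  rw [Real.norm_eq_abs, abs_of_nonneg (wt_nonneg c y)]
  have hn := norm_nonneg y
  set x := ‖y‖
  have hr : 0 < 1 + x := by linarith
  have e1 : (1 + x) ^ (-((d : ℝ) + 1)) = ((1 + x) ^ (d + 1))⁻¹ := by
    rw [Real.rpow_neg hr.le, ← Real.rpow_natCast]; push_cast; rfl
  rw [e1, ← div_eq_mul_inv, le_div_iff₀ (by positivity)]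
  have h2 := Real.pow_div_factorial_le_exp (1 + x) hr.le (d + 7)
  rw [div_le_iff₀ (by positivity)] at h2
  have h3 : Real.exp (1 + x) * Real.exp (-(c * x ^ 2)) ≤ Real.exp (1 + 1 / (4 * c)) := by
    rw [← Real.exp_add]
    apply Real.exp_le_exp.2
    have : x - c * x ^ 2 ≤ 1 / (4 * c) := by
      rw [le_div_iff₀ (by positivity)]
      nlinarith [sq_nonneg (2 * c * x - 1)]
    linarith
  unfold wt
  calc (1 + x) ^ 6 * Real.exp (-(c * x ^ 2)) * (1 + x) ^ (d + 1)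
      = (1 + x) ^ (d + 7) * Real.exp (-(c * x ^ 2)) := by ring
    _ ≤ (Real.exp (1 + x) * ((d + 7).factorial : ℝ)) * Real.exp (-(c * x ^ 2)) := by gcongr
    _ = ((d + 7).factorial : ℝ) * (Real.exp (1 + x) * Real.exp (-(c * x ^ 2))) := by ring
    _ ≤ _ := by gcongr

end Pool.Agent.MP_2c685a_gt
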