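import Mathlib

set_option autoImplicit false

open MeasureTheory Set

namespace Pool.Agent.MP_2c685a_gt

lemma ii_div_cube {φ : ℝ → ℝ} (hφ : Continuous φ) {s t : ℝ} (hs : 0 < s) (ht : 0 < t) :
    IntervalIntegrable (fun a => φ a / a ^ 3) volume s t := by
  apply ContinuousOn.intervalIntegrable
  apply ContinuousOn.div hφ.continuousOn (by fun_prop)
  intro x hx
  have : 0 < x := lt_of_lt_of_le (lt_min hs ht) hx.1
  positivity

lemma rescale (φ : ℝ → ℝ) {β δ e : ℝ} (hβ : 0 < β) (hδ : 0 < δ) (he : δ ≤ e) :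
    ∫ ε in δ..e, φ (ε * β) / ε ^ 3 = β ^ 2 * ∫ a in (δ * β)..(e * β), φ a / a ^ 3 := by
  have h1 : ∫ ε in δ..e, φ (ε * β) / ε ^ 3
      = ∫ ε in δ..e, β ^ 3 * ((fun a => φ a / a ^ 3) (ε * β)) := by
    apply intervalIntegral.integral_congr
    intro x hx
    rw [uIcc_of_le he] at hx
    have : 0 < x := lt_of_lt_of_le hδ hx.1
    simp only
    field_simp
  rw [h1, intervalIntegral.integral_const_mul,
    intervalIntegral.integral_comp_mul_right (fun a => φ a / a ^ 3) hβ.ne']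
  simp only [smul_eq_mul]
  field_simp

lemma integral_const_div_cube (B : ℝ) {s t : ℝ} (hs : 0 < s) (hst : s ≤ t) :
    ∫ a in s..t, B / a ^ 3 = B / (2 * s ^ 2) - B / (2 * t ^ 2) := by
  have ht : 0 < t := lt_of_lt_of_le hs hst
  have hd : ∀ x ∈ uIcc s t, HasDerivAt (fun a : ℝ => -B / (2 * a ^ 2)) (B / x ^ 3) x := by
    intro x hx
    rw [uIcc_of_le hst] at hx
    have hx0 : 0 < x := lt_of_lt_of_le hs hx.1
    have h1 : HasDerivAt (fun a : ℝ => 2 * a ^ 2) (2 * (2 * x)) x := by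
      simpa using (hasDerivAt_pow 2 x).const_mul 2
    have h2 := (hasDerivAt_const x (-B)).div h1 (by positivity)
    refine h2.congr_deriv ?_
    field_simp
    ring
  rw [intervalIntegral.integral_eq_sub_of_hasDerivAt hd
    (ii_div_cube (φ := fun _ => B) continuous_const hs ht)]
  ring

lemma tail_bound {φ : ℝ → ℝ} {s t B : ℝ} (hs : 0 < s) (hst : s ≤ t)
    (hB : ∀ a, s ≤ a → a ≤ t → |φ a| ≤ B) :
    |∫ a in s..t, φ a / a ^ 3| ≤ B / (2 * s ^ 2) := by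
  have ht : 0 < t := lt_of_lt_of_le hs hst
  have hB0 : 0 ≤ B := le_trans (abs_nonneg _) (hB s le_rfl hst)
  have h1 : ‖∫ a in s..t, φ a / a ^ 3‖ ≤ ∫ a in s..t, B / a ^ 3 := by
    apply intervalIntegral.norm_integral_le_of_norm_le hst
    · refine Filter.Eventually.of_forall fun a ha => ?_
      have ha0 : 0 < a := lt_trans hs ha.1
      rw [Real.norm_eq_abs, abs_div, abs_of_pos (by positivity : 0 < a ^ 3)]
      gcongr
      exact hB a ha.1.le ha.2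
    · exact ii_div_cube (φ := fun _ => B) continuous_const hs ht
  rw [integral_const_div_cube B hs hst, Real.norm_eq_abs] at h1
  have : 0 ≤ B / (2 * t ^ 2) := by positivity
  linarith

lemma one_scale {φ : ℝ → ℝ} (hφ : Continuous φ) (h0 : φ 0 = 0) {β m δ e B₁ B₂ : ℝ}
    (hβ : 0 ≤ β) (hβm : β ≤ m) (hδ : 0 < δ) (he : δ ≤ e)
    (hB₁ : ∀ a, 0 ≤ a → a ≤ δ * m → |φ a| ≤ B₁) (hB₂ : ∀ a, 0 ≤ a → a ≤ e * m → |φ a| ≤ B₂) :
    |(∫ ε in δ..e, φ (ε * β) / ε ^ 3) - β ^ 2 * ∫ a in (δ * m)..(e * m), φ a / a ^ 3|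
      ≤ B₁ / (2 * δ ^ 2) + B₂ / (2 * e ^ 2) := by
  have he0 : 0 < e := lt_of_lt_of_le hδ he
  have hm0 : 0 ≤ m := le_trans hβ hβm
  have hB₁0 : 0 ≤ B₁ := le_trans (abs_nonneg _) (hB₁ 0 le_rfl (by positivity))
  have hB₂0 : 0 ≤ B₂ := le_trans (abs_nonneg _) (hB₂ 0 le_rfl (by positivity))
  rcases hβ.eq_or_lt with rfl | hβ
  · simp only [mul_zero, h0, zero_div, intervalIntegral.integral_zero]
    simp only [ne_eq, OfNat.ofNat_ne_zero, not_false_eq_true, zero_pow, zero_mul, sub_self,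
      abs_zero]
    positivity
  have hm : 0 < m := lt_of_lt_of_le hβ hβm
  rw [rescale φ hβ hδ he]
  have i1 := ii_div_cube hφ (mul_pos hδ hβ) (mul_pos hδ hm)
  have i2 := ii_div_cube hφ (mul_pos hδ hm) (mul_pos he0 hm)
  have i3 := ii_div_cube hφ (mul_pos he0 hβ) (mul_pos he0 hm)
  have i4 := ii_div_cube hφ (mul_pos hδ hβ) (mul_pos he0 hβ)
  have e1 := intervalIntegral.integral_add_adjacent_intervals i1 i2
  have e2 := intervalIntegral.integral_add_adjacent_intervals i4 i3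
  have t1 := tail_bound (φ := φ) (B := B₁) (mul_pos hδ hβ) (by gcongr : δ * β ≤ δ * m)
    (fun a h1 h2 => hB₁ a (le_trans (by positivity) h1) h2)
  have t2 := tail_bound (φ := φ) (B := B₂) (mul_pos he0 hβ) (by gcongr : e * β ≤ e * m)
    (fun a h1 h2 => hB₂ a (le_trans (by positivity) h1) h2)
  set J1 := ∫ a in (δ * β)..(δ * m), φ a / a ^ 3
  set J2 := ∫ a in (δ * m)..(e * m), φ a / a ^ 3
  set J3 := ∫ a in (e * β)..(e * m), φ a / a ^ 3
  set J4 := ∫ a in (δ * β)..(e * β), φ a / a ^ 3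
  have : β ^ 2 * J4 - β ^ 2 * J2 = β ^ 2 * J1 - β ^ 2 * J3 := by
    have : J4 = J1 + J2 - J3 := by linarith
    rw [this]; ring
  rw [this]
  have u1 : |β ^ 2 * J1| ≤ B₁ / (2 * δ ^ 2) := by
    rw [abs_mul, abs_of_nonneg (by positivity : 0 ≤ β ^ 2)]
    calc β ^ 2 * |J1| ≤ β ^ 2 * (B₁ / (2 * (δ * β) ^ 2)) := by gcongr
      _ = B₁ / (2 * δ ^ 2) := by field_simp
  have u2 : |β ^ 2 * J3| ≤ B₂ / (2 * e ^ 2) := by
    rw [abs_mul, abs_of_nonneg (by positivity : 0 ≤ β ^ 2)]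
    calc β ^ 2 * |J3| ≤ β ^ 2 * (B₂ / (2 * (e * β) ^ 2)) := by gcongr
      _ = B₂ / (2 * e ^ 2) := by field_simp
  exact le_trans (abs_sub _ _) (add_le_add u1 u2)

/-- parallelogram defect of a one-variable function -/
def pdef (φ : ℝ → ℝ) (x y ε : ℝ) : ℝ :=
  φ (ε * (x + y)) + φ (ε * (x - y)) - 2 * φ (ε * x) - 2 * φ (ε * y)

lemma four_scale {φ : ℝ → ℝ} (hφ : Continuous φ) (h0 : φ 0 = 0) (hev : ∀ a, φ (-a) = φ a)
    {x y δ e B₁ B₂ : ℝ} (hδ : 0 < δ) (he : δ ≤ e)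
    (hB₁ : ∀ a, 0 ≤ a → a ≤ δ * (|x| + |y|) → |φ a| ≤ B₁)
    (hB₂ : ∀ a, 0 ≤ a → a ≤ e * (|x| + |y|) → |φ a| ≤ B₂) :
    |∫ ε in δ..e, pdef φ x y ε / ε ^ 3| ≤ 3 * B₁ / δ ^ 2 + 3 * B₂ / e ^ 2 := by
  have he0 : 0 < e := lt_of_lt_of_le hδ he
  have habs : ∀ ε b : ℝ, φ (ε * b) = φ (ε * |b|) := by
    intro ε b
    rcases abs_choice b with h | h
    · rw [h]
    · rw [h, mul_neg, hev]
  have ii : ∀ b : ℝ, IntervalIntegrable (fun ε => φ (ε * |b|) / ε ^ 3) volume δ e := fun b =>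
    ii_div_cube (φ := fun ε => φ (ε * |b|)) (by fun_prop) hδ he0
  have h1 : ∫ ε in δ..e, pdef φ x y ε / ε ^ 3
      = (∫ ε in δ..e, φ (ε * |x + y|) / ε ^ 3) + (∫ ε in δ..e, φ (ε * |x - y|) / ε ^ 3)
        - 2 * (∫ ε in δ..e, φ (ε * |x|) / ε ^ 3) - 2 * (∫ ε in δ..e, φ (ε * |y|) / ε ^ 3) := by
    rw [← intervalIntegral.integral_const_mul, ← intervalIntegral.integral_const_mul,
      ← intervalIntegral.integral_add (ii _) (ii _),
      ← intervalIntegral.integral_sub ((ii _).add (ii _)) ((ii _).const_mul 2),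
      ← intervalIntegral.integral_sub (((ii _).add (ii _)).sub ((ii _).const_mul 2))
        ((ii _).const_mul 2)]
    apply intervalIntegral.integral_congr
    intro ε _
    simp only [pdef]
    rw [habs ε (x + y), habs ε (x - y), habs ε x, habs ε y]
    ring
  have a1 := one_scale hφ h0 (abs_nonneg (x + y)) (abs_add_le x y) hδ he hB₁ hB₂
  have a2 := one_scale hφ h0 (abs_nonneg (x - y)) (abs_sub x y) hδ he hB₁ hB₂
  have a3 := one_scale hφ h0 (abs_nonneg x) (le_add_of_nonneg_right (abs_nonneg y)) hδ he hB₁ hB₂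
  have a4 := one_scale hφ h0 (abs_nonneg y) (le_add_of_nonneg_left (abs_nonneg x)) hδ he hB₁ hB₂
  rw [h1]
  simp only [sq_abs] at a1 a2 a3 a4
  set J := ∫ a in (δ * (|x| + |y|))..(e * (|x| + |y|)), φ a / a ^ 3
  rw [abs_le] at a1 a2 a3 a4 ⊢
  have e1 : 3 * B₁ / δ ^ 2 + 3 * B₂ / e ^ 2 = 6 * (B₁ / (2 * δ ^ 2) + B₂ / (2 * e ^ 2)) := by
    field_simp
    ring
  have e2 : (x + y) ^ 2 * J + (x - y) ^ 2 * J - 2 * (x ^ 2 * J) - 2 * (y ^ 2 * J) = 0 := by ring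
  rw [e1]
  constructor <;> linarith [a1.1, a1.2, a2.1, a2.2, a3.1, a3.2, a4.1, a4.2]

/-- the integrated version -/
lemma integrated_scale {Ω : Type*} [TopologicalSpace Ω] [MeasurableSpace Ω]
    [OpensMeasurableSpace Ω] [SecondCountableTopology Ω] (μ : Measure Ω) [SFinite μ]
    {φ : Ω → ℝ → ℝ} (hφ : Continuous (Function.uncurry φ)) (h0 : ∀ ω, φ ω 0 = 0)
    (hev : ∀ ω a, φ ω (-a) = φ ω a) {x y : Ω → ℝ} (hx : Continuous x) (hy : Continuous y)
    {δ e : ℝ} (hδ : 0 < δ) (he : δ ≤ e) {B₁ B₂ : Ω → ℝ} (iB₁ : Integrable B₁ μ)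
    (iB₂ : Integrable B₂ μ)
    (hB₁ : ∀ ω a, 0 ≤ a → a ≤ δ * (|x ω| + |y ω|) → |φ ω a| ≤ B₁ ω)
    (hB₂ : ∀ ω a, 0 ≤ a → a ≤ e * (|x ω| + |y ω|) → |φ ω a| ≤ B₂ ω) :
    IntervalIntegrable (fun ε => (∫ ω, pdef (φ ω) (x ω) (y ω) ε ∂μ) / ε ^ 3) volume δ e ∧
    |∫ ε in δ..e, (∫ ω, pdef (φ ω) (x ω) (y ω) ε ∂μ) / ε ^ 3|
      ≤ 3 * (∫ ω, B₁ ω ∂μ) / δ ^ 2 + 3 * (∫ ω, B₂ ω ∂μ) / e ^ 2 := by
  have he0 : 0 < e := lt_of_lt_of_le hδ he
  have hφω : ∀ ω, Continuous (φ ω) := fun ω => hφ.comp (Continuous.prodMk_right ω)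
  have hcomp : ∀ b : Ω → ℝ, Continuous b →
      Continuous (fun z : ℝ × Ω => φ z.2 (z.1 * b z.2)) := fun b hb =>
    hφ.comp (continuous_snd.prodMk (continuous_fst.mul (hb.comp continuous_snd)))
  have hc : Continuous (fun z : ℝ × Ω => pdef (φ z.2) (x z.2) (y z.2) z.1) := by
    unfold pdef
    exact (((hcomp _ (hx.add hy)).add (hcomp _ (hx.sub hy))).sub
      (continuous_const.mul (hcomp _ hx))).sub (continuous_const.mul (hcomp _ hy))
  have hm : Measurable (fun z : ℝ × Ω => pdef (φ z.2) (x z.2) (y z.2) z.1 / z.1 ^ 3) :=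
    hc.measurable.div (measurable_fst.pow_const 3)
  have hb : ∀ ω b ε, |b| ≤ |x ω| + |y ω| → δ < ε → ε ≤ e → |φ ω (ε * b)| ≤ B₂ ω := by
    intro ω b ε hb h1 h2
    have hε : 0 < ε := lt_trans hδ h1
    have : φ ω (ε * b) = φ ω (ε * |b|) := by
      rcases abs_choice b with h | h
      · rw [h]
      · rw [h, mul_neg, hev]
    rw [this]
    apply hB₂ ω _ (by positivity)
    gcongr
  have hint : Integrable (Function.uncurry fun (ε : ℝ) (ω : Ω) =>
      pdef (φ ω) (x ω) (y ω) ε / ε ^ 3) ((volume.restrict (uIoc δ e)).prod μ) := by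
    have hI : Integrable (fun z : ℝ × Ω => (6 / δ ^ 3) * B₂ z.2)
        ((volume.restrict (uIoc δ e)).prod μ) := by
      have : IsFiniteMeasure (volume.restrict (uIoc δ e)) := by
        rw [uIoc_of_le he]; infer_instance
      exact (iB₂.comp_snd _).const_mul _
    refine hI.mono' hm.aestronglyMeasurable ?_
    have hae : ∀ᵐ z ∂((volume.restrict (uIoc δ e)).prod μ), z.1 ∈ uIoc δ e := by
      have : ∀ᵐ ε ∂(volume.restrict (uIoc δ e)), ε ∈ uIoc δ e :=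
        ae_restrict_mem measurableSet_uIoc
      exact (Measure.quasiMeasurePreserving_fst).ae this
    filter_upwards [hae] with z hz
    rw [uIoc_of_le he] at hz
    have hε : 0 < z.1 := lt_trans hδ hz.1
    have b1 := hb z.2 (x z.2 + y z.2) z.1 (abs_add_le _ _) hz.1 hz.2
    have b2 := hb z.2 (x z.2 - y z.2) z.1 (abs_sub _ _) hz.1 hz.2
    have b3 := hb z.2 (x z.2) z.1 (le_add_of_nonneg_right (abs_nonneg _)) hz.1 hz.2
    have b4 := hb z.2 (y z.2) z.1 (le_add_of_nonneg_left (abs_nonneg _)) hz.1 hz.2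
    have hB0 : 0 ≤ B₂ z.2 := le_trans (abs_nonneg _) b1
    have : |pdef (φ z.2) (x z.2) (y z.2) z.1| ≤ 6 * B₂ z.2 := by
      unfold pdef
      rw [abs_le] at b1 b2 b3 b4 ⊢
      constructor <;> linarith [b1.1, b1.2, b2.1, b2.2, b3.1, b3.2, b4.1, b4.2]
    simp only [Function.uncurry, Real.norm_eq_abs]
    rw [abs_div, abs_of_pos (by positivity : 0 < z.1 ^ 3)]
    calc _ ≤ 6 * B₂ z.2 / δ ^ 3 := by
          gcongr
          exact hz.1.le
      _ = 6 / δ ^ 3 * B₂ z.2 := by ring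
  have hdiv : (fun ε => (∫ ω, pdef (φ ω) (x ω) (y ω) ε ∂μ) / ε ^ 3)
      = fun ε => ∫ ω, pdef (φ ω) (x ω) (y ω) ε / ε ^ 3 ∂μ := by
    funext ε
    rw [integral_div]
  rw [hdiv]
  constructor
  · rw [intervalIntegrable_iff]
    exact hint.integral_prod_left
  · rw [intervalIntegral_integral_swap hint]
    have hI : Integrable (fun ω => 3 * B₁ ω / δ ^ 2 + 3 * B₂ ω / e ^ 2) μ :=
      ((iB₁.const_mul 3).div_const _).add ((iB₂.const_mul 3).div_const _)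
    have := norm_integral_le_of_norm_le (f := fun ω => ∫ ε in δ..e,
      pdef (φ ω) (x ω) (y ω) ε / ε ^ 3) hI (Filter.Eventually.of_forall fun ω =>
        four_scale (hφω ω) (h0 ω) (hev ω) hδ he (hB₁ ω) (hB₂ ω))
    rw [integral_add ((iB₁.const_mul 3).div_const _) ((iB₂.const_mul 3).div_const _),
      integral_div, integral_div, integral_const_mul, integral_const_mul] at this
    exact this

end Pool.Agent.MP_2c685a_gt
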