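import Mathlib
import Pool.Agent.MP_2c685a_gt.Scale
import Pool.Agent.MP_2c685a_gt.Expand

set_option autoImplicit false

open MeasureTheory Set

namespace Pool.Agent.MP_2c685a_gt

lemma dd_even (f : ℝ → ℝ) (a : ℝ) : dd f (-a) = dd f a := by
  simp only [dd, mul_neg, neg_neg]; ring

lemma dd_zero (f : ℝ → ℝ) : dd f 0 = 0 := by
  simp only [dd, mul_zero, neg_zero]; ring

lemma dd_abs (f : ℝ → ℝ) (a : ℝ) : dd f |a| = dd f a := by
  rcases abs_choice a with h | h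
  · rw [h]
  · rw [h, dd_even]

/-- tent kernel -/
noncomputable def tent (η a : ℝ) : ℝ := dd (fun s => |η - s|) a

lemma abs_add_abs_sub' (η s : ℝ) : |η - s| + |η - -s| = 2 * max |η| |s| := by
  rw [sub_neg_eq_add]
  rcases abs_cases (η - s) with h1 | h1 <;> rcases abs_cases (η + s) with h2 | h2 <;>
    rcases abs_cases η with h3 | h3 <;> rcases abs_cases s with h4 | h4 <;>
    rcases max_cases |η| |s| with h5 | h5 <;> linarith [h1.1, h1.2, h2.1, h2.2, h3.1, h3.2,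
      h4.1, h4.2, h5.1, h5.2]

lemma tent_eq (η : ℝ) {a : ℝ} (ha : 0 ≤ a) :
    tent η a = 2 * max |η| (2 * a) - 4 * max |η| a + 2 * |η| := by
  have h1 := abs_add_abs_sub' η (2 * a)
  have h2 := abs_add_abs_sub' η a
  rw [abs_of_nonneg (by linarith : 0 ≤ 2 * a)] at h1
  rw [abs_of_nonneg ha] at h2
  simp only [tent, dd, sub_zero]
  linarith

lemma tent_nonneg' (η : ℝ) {a : ℝ} (ha : 0 ≤ a) : 0 ≤ tent η a := by
  rw [tent_eq η ha]
  have := abs_nonneg η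
  rcases max_cases |η| (2 * a) with h1 | h1 <;> rcases max_cases |η| a with h2 | h2 <;>
    linarith [h1.1, h1.2, h2.1, h2.2]

lemma tent_abs (η a : ℝ) : tent η |a| = tent η a := dd_abs _ _

lemma tent_nonneg (η a : ℝ) : 0 ≤ tent η a := by
  rw [← tent_abs]; exact tent_nonneg' η (abs_nonneg a)

lemma tent_mono (η : ℝ) {a b : ℝ} (ha : 0 ≤ a) (hab : a ≤ b) : tent η a ≤ tent η b := by
  rw [tent_eq η ha, tent_eq η (le_trans ha hab)]
  have := abs_nonneg η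
  rcases max_cases |η| (2 * a) with h1 | h1 <;> rcases max_cases |η| a with h2 | h2 <;>
    rcases max_cases |η| (2 * b) with h3 | h3 <;> rcases max_cases |η| b with h4 | h4 <;>
    linarith [h1.1, h1.2, h2.1, h2.2, h3.1, h3.2, h4.1, h4.2]

lemma tent_le (η x y : ℝ) {a δ : ℝ} (hδ : 0 ≤ δ) (ha : 0 ≤ a) (h : a ≤ δ * (|x| + |y|)) :
    |tent η a| ≤ tent η (δ * (x + y)) + tent η (δ * (x - y)) := by
  rw [abs_of_nonneg (tent_nonneg η a)]
  have h1 := tent_nonneg η (δ * (x + y))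
  have h2 := tent_nonneg η (δ * (x - y))
  have h3 : |x| + |y| = |x + y| ∨ |x| + |y| = |x - y| := by
    rcases abs_cases x with a1 | a1 <;> rcases abs_cases y with a2 | a2
    · left; rw [abs_of_nonneg (by linarith [a1.2, a2.2] : 0 ≤ x + y)]; linarith [a1.1, a2.1]
    · right; rw [abs_of_nonneg (by linarith [a1.2, a2.2] : 0 ≤ x - y)]; linarith [a1.1, a2.1]
    · right; rw [abs_of_nonpos (by linarith [a1.2, a2.2] : x - y ≤ 0)]; linarith [a1.1, a2.1]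
    · left; rw [abs_of_nonpos (by linarith [a1.2, a2.2] : x + y ≤ 0)]; linarith [a1.1, a2.1]
  rcases h3 with h3 | h3
  · have : tent η a ≤ tent η (δ * (x + y)) := by
      rw [← tent_abs η (δ * (x + y)), abs_mul, abs_of_nonneg hδ, ← h3]
      exact tent_mono η ha h
    linarith
  · have : tent η a ≤ tent η (δ * (x - y)) := by
      rw [← tent_abs η (δ * (x - y)), abs_mul, abs_of_nonneg hδ, ← h3]
      exact tent_mono η ha h
    linarith

lemma abs_integral_le {Ω : Type*} [MeasurableSpace Ω] {μ : Measure Ω} {f g : Ω → ℝ}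
    (hg : Integrable g μ) (h : ∀ ω, |f ω| ≤ g ω) : |∫ ω, f ω ∂μ| ≤ ∫ ω, g ω ∂μ :=
  norm_integral_le_of_norm_le (f := f) hg (Filter.Eventually.of_forall h)

lemma integral_comb {Ω : Type*} [MeasurableSpace Ω] {μ : Measure Ω} {f₁ f₂ f₃ f₄ f₅ : Ω → ℝ}
    (h₁ : Integrable f₁ μ) (h₂ : Integrable f₂ μ) (h₃ : Integrable f₃ μ) (h₄ : Integrable f₄ μ)
    (h₅ : Integrable f₅ μ) (c₁ c₂ c₃ c₄ c₅ : ℝ) :
    Integrable (fun ω => c₁ * f₁ ω + c₂ * f₂ ω + c₃ * f₃ ω + c₄ * f₄ ω + c₅ * f₅ ω) μ ∧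
    ∫ ω, c₁ * f₁ ω + c₂ * f₂ ω + c₃ * f₃ ω + c₄ * f₄ ω + c₅ * f₅ ω ∂μ
      = c₁ * ∫ ω, f₁ ω ∂μ + c₂ * ∫ ω, f₂ ω ∂μ + c₃ * ∫ ω, f₃ ω ∂μ + c₄ * ∫ ω, f₄ ω ∂μ
        + c₅ * ∫ ω, f₅ ω ∂μ := by
  have i1 : Integrable (fun ω => c₁ * f₁ ω) μ := h₁.const_mul _
  have i2 : Integrable (fun ω => c₂ * f₂ ω) μ := h₂.const_mul _
  have i3 : Integrable (fun ω => c₃ * f₃ ω) μ := h₃.const_mul _
  have i4 : Integrable (fun ω => c₄ * f₄ ω) μ := h₄.const_mul _
  have i5 : Integrable (fun ω => c₅ * f₅ ω) μ := h₅.const_mul _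
  have j2 : Integrable (fun ω => c₁ * f₁ ω + c₂ * f₂ ω) μ := i1.add i2
  have j3 : Integrable (fun ω => c₁ * f₁ ω + c₂ * f₂ ω + c₃ * f₃ ω) μ := j2.add i3
  have j4 : Integrable (fun ω => c₁ * f₁ ω + c₂ * f₂ ω + c₃ * f₃ ω + c₄ * f₄ ω) μ := j3.add i4
  refine ⟨j4.add i5, ?_⟩
  rw [integral_add j4 i5, integral_add j3 i4, integral_add j2 i3, integral_add i1 i2]
  simp only [integral_const_mul]

lemma dd_integral {Ω : Type*} [MeasurableSpace Ω] (μ : Measure Ω) (F : Ω → ℝ → ℝ) (b : Ω → ℝ)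
    (hF : ∀ s, Integrable (fun ω => F ω (s * b ω)) μ) (ε : ℝ) :
    Integrable (fun ω => dd (F ω) (ε * b ω)) μ ∧
    dd (fun s => ∫ ω, F ω (s * b ω) ∂μ) ε = ∫ ω, dd (F ω) (ε * b ω) ∂μ := by
  have e : (fun ω => dd (F ω) (ε * b ω)) = fun ω =>
      1 * F ω (2 * ε * b ω) + 1 * F ω (-(2 * ε) * b ω) + (-2) * F ω (ε * b ω)
        + (-2) * F ω (-ε * b ω) + 2 * F ω (0 * b ω) := by
    funext ω
    simp only [dd, zero_mul, neg_mul, mul_assoc]
    ring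
  have h := integral_comb (hF (2 * ε)) (hF (-(2 * ε))) (hF ε) (hF (-ε)) (hF 0) 1 1 (-2) (-2) 2
  rw [e]
  refine ⟨h.1, ?_⟩
  rw [h.2]
  simp only [dd]
  ring

lemma pdef_integral {Ω : Type*} [MeasurableSpace Ω] (μ : Measure Ω) (φ : Ω → ℝ → ℝ)
    (x y : Ω → ℝ) (ε : ℝ)
    (h1 : Integrable (fun ω => φ ω (ε * (x ω + y ω))) μ)
    (h2 : Integrable (fun ω => φ ω (ε * (x ω - y ω))) μ)
    (h3 : Integrable (fun ω => φ ω (ε * x ω)) μ) (h4 : Integrable (fun ω => φ ω (ε * y ω)) μ) :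
    ∫ ω, pdef (φ ω) (x ω) (y ω) ε ∂μ = (∫ ω, φ ω (ε * (x ω + y ω)) ∂μ)
      + (∫ ω, φ ω (ε * (x ω - y ω)) ∂μ) - 2 * (∫ ω, φ ω (ε * x ω) ∂μ)
      - 2 * (∫ ω, φ ω (ε * y ω) ∂μ) := by
  have h := (integral_comb h1 h2 h3 h4 h4 1 1 (-2) (-2) 0).2
  have e : (fun ω => pdef (φ ω) (x ω) (y ω) ε) = fun ω => 1 * φ ω (ε * (x ω + y ω))
      + 1 * φ ω (ε * (x ω - y ω)) + (-2) * φ ω (ε * x ω) + (-2) * φ ω (ε * y ω)
      + 0 * φ ω (ε * y ω) := by
    funext ω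
    simp only [pdef]
    ring
  rw [e, h]
  ring

variable {U : Type*} [NormedAddCommGroup U] [NormedSpace ℝ U] [FiniteDimensional ℝ U]
  [MeasurableSpace U] [BorelSpace U] (ν : Measure U) [ν.IsAddHaarMeasure]

/-- section integral -/
noncomputable def sec (H : ℝ → U → ℝ) (κ : U → ℝ) (b : U → ℝ) (s : ℝ) : ℝ :=
  ∫ y, dens H κ (s * b y) y ∂ν

/-- linear term -/
noncomputable def ell (H : ℝ → U → ℝ) (κ : U → ℝ) (t : ℝ) (b : U → ℝ) : ℝ :=
  ∫ y, b y * slp H t y * dens H κ 0 y ∂ν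

/-- ridge term -/
noncomputable def Phi (H : ℝ → U → ℝ) (κ : U → ℝ) (b : U → ℝ) : ℝ :=
  ∫ y, |b y| * κ y * dens H κ 0 y ∂ν

omit [NormedSpace ℝ U] [FiniteDimensional ℝ U] [MeasurableSpace U] [BorelSpace U] in
lemma exp_le_wt (c : ℝ) (y : U) {k : ℕ} (hk : k ≤ 6) :
    (1 + ‖y‖) ^ k * Real.exp (-(c * ‖y‖ ^ 2)) ≤ wt c y := by
  unfold wt
  have : 1 ≤ 1 + ‖y‖ := by linarith [norm_nonneg y]
  gcongr

namespace Good

variable {H : ℝ → U → ℝ} {κ : U → ℝ} {c L : ℝ}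

lemma int_sec (g : Good H κ c L) {b : U → ℝ} (hb : Continuous b) (s : ℝ) :
    Integrable (fun y => dens H κ (s * b y) y) ν := by
  have hc : Continuous (fun y => dens H κ (s * b y) y) :=
    g.dens_cont.comp ((continuous_const.mul hb).prodMk continuous_id)
  refine (wt_integrable ν g.cpos).mono' hc.aestronglyMeasurable
    (Filter.Eventually.of_forall fun y => ?_)
  rw [Real.norm_eq_abs, abs_of_pos (dens_pos _ _)]
  refine le_trans (g.dens_le _ _) ?_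
  simpa using exp_le_wt c y (k := 0) (by norm_num)

omit [NormedSpace ℝ U] [FiniteDimensional ℝ U] [MeasurableSpace U] [BorelSpace U] in
lemma dens0_cont (g : Good H κ c L) : Continuous (fun y => dens H κ 0 y) :=
  g.dens_cont.comp (Continuous.prodMk_right 0)

omit [NormedSpace ℝ U] [FiniteDimensional ℝ U] [MeasurableSpace U] [BorelSpace U] in
lemma ell_bd (g : Good H κ c L) {b : ℝ} {y : U} (hb1 : |b| ≤ 2 * ‖y‖) {t : ℝ} (ht : 0 < t)
    (ht1 : t ≤ 1) : |b * slp H t y * dens H κ 0 y| ≤ 6 * L * wt c y := by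
  have hL := g.Lnn
  have hn := norm_nonneg y
  have h1 := g.slp_bd y ht.ne'
  rw [abs_of_pos ht] at h1
  rw [abs_mul, abs_mul, abs_of_pos (dens_pos _ _)]
  calc |b| * |slp H t y| * dens H κ 0 y
      ≤ (2 * (1 + ‖y‖)) * (L * (3 * (1 + ‖y‖) ^ 2)) * Real.exp (-(c * ‖y‖ ^ 2)) := by
        gcongr
        · exact (dens_pos _ _).le
        · linarith
        · exact le_trans h1 (by gcongr; nlinarith)
        · exact g.dens_le _ _
    _ = 6 * L * ((1 + ‖y‖) ^ 3 * Real.exp (-(c * ‖y‖ ^ 2))) := by ring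
    _ ≤ _ := by gcongr; exact exp_le_wt c y (by norm_num)

omit [NormedSpace ℝ U] [FiniteDimensional ℝ U] [MeasurableSpace U] [BorelSpace U] in
lemma Phi_bd (g : Good H κ c L) {b : ℝ} {y : U} (hb1 : |b| ≤ 2 * ‖y‖) :
    |(|b| * κ y * dens H κ 0 y)| ≤ 6 * L * wt c y := by
  have hL := g.Lnn
  have hn := norm_nonneg y
  have h0 := g.κ0 y
  have h1 := g.κ1 y
  rw [abs_mul, abs_mul, abs_of_pos (dens_pos _ _), abs_abs, abs_of_nonneg h0]
  calc |b| * κ y * dens H κ 0 y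
      ≤ (2 * (1 + ‖y‖)) * (L * (3 * (1 + ‖y‖))) * Real.exp (-(c * ‖y‖ ^ 2)) := by
        gcongr
        · exact (dens_pos _ _).le
        · linarith
        · exact le_trans h1 (by gcongr; linarith)
        · exact g.dens_le _ _
    _ = 6 * L * ((1 + ‖y‖) ^ 2 * Real.exp (-(c * ‖y‖ ^ 2))) := by ring
    _ ≤ _ := by gcongr; exact exp_le_wt c y (by norm_num)

lemma int_ell (g : Good H κ c L) {b : U → ℝ} (hb : Continuous b) (hb1 : ∀ y, |b y| ≤ 2 * ‖y‖)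
    {t : ℝ} (ht : 0 < t) (ht1 : t ≤ 1) :
    Integrable (fun y => b y * slp H t y * dens H κ 0 y) ν :=
  ((wt_integrable ν g.cpos).const_mul (6 * L)).mono'
    ((hb.mul (g.slp_cont t)).mul g.dens0_cont).aestronglyMeasurable
    (Filter.Eventually.of_forall fun y => g.ell_bd (hb1 y) ht ht1)

lemma int_Phi (g : Good H κ c L) {b : U → ℝ} (hb : Continuous b) (hb1 : ∀ y, |b y| ≤ 2 * ‖y‖) :
    Integrable (fun y => |b y| * κ y * dens H κ 0 y) ν :=
  ((wt_integrable ν g.cpos).const_mul (6 * L)).mono'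
    ((hb.abs.mul g.κc).mul g.dens0_cont).aestronglyMeasurable
    (Filter.Eventually.of_forall fun y => g.Phi_bd (hb1 y))

lemma abs_ell_le (g : Good H κ c L) {b : U → ℝ} (hb1 : ∀ y, |b y| ≤ 2 * ‖y‖)
    {t : ℝ} (ht : 0 < t) (ht1 : t ≤ 1) : |ell ν H κ t b| ≤ 6 * L * ∫ y, wt c y ∂ν := by
  rw [← integral_const_mul]
  exact abs_integral_le ((wt_integrable ν g.cpos).const_mul (6 * L))
    (fun y => g.ell_bd (hb1 y) ht ht1)

lemma abs_Phi_le (g : Good H κ c L) {b : U → ℝ} (hb1 : ∀ y, |b y| ≤ 2 * ‖y‖) :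
    |Phi ν H κ b| ≤ 6 * L * ∫ y, wt c y ∂ν := by
  rw [← integral_const_mul]
  exact abs_integral_le ((wt_integrable ν g.cpos).const_mul (6 * L))
    (fun y => g.Phi_bd (hb1 y))

lemma sec_expand (g : Good H κ c L) {b : U → ℝ} (hb : Continuous b) (hb1 : ∀ y, |b y| ≤ 2 * ‖y‖)
    {s t : ℝ} (ht : 0 < t) (hts : t ≤ |s|) (hs : |s| ≤ 1) :
    |sec ν H κ b s - sec ν H κ b 0 + s * ell ν H κ t b + |s| * Phi ν H κ b|
      ≤ ((16 * L ^ 2 + 6 * L) * ∫ y, wt c y ∂ν) * s ^ 2 := by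
  have i1 := g.int_sec ν hb s
  have i2 := g.int_sec ν hb 0
  have i3 := g.int_ell ν hb hb1 ht (le_trans hts hs)
  have i4 := g.int_Phi ν hb hb1
  have h := (integral_comb i1 i2 i3 i4 i4 1 (-1) s |s| 0).2
  have e0 : sec ν H κ b s - sec ν H κ b 0 + s * ell ν H κ t b + |s| * Phi ν H κ b
      = ∫ y, 1 * dens H κ (s * b y) y + (-1) * dens H κ (0 * b y) y
        + s * (b y * slp H t y * dens H κ 0 y) + |s| * (|b y| * κ y * dens H κ 0 y)
        + 0 * (|b y| * κ y * dens H κ 0 y) ∂ν := by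
    rw [h]; unfold sec ell Phi; ring
  have e : ((16 * L ^ 2 + 6 * L) * ∫ y, wt c y ∂ν) * s ^ 2
      = ∫ y, (16 * L ^ 2 + 6 * L) * s ^ 2 * wt c y ∂ν := by
    rw [integral_const_mul]; ring
  rw [e, e0]
  refine abs_integral_le ((wt_integrable ν g.cpos).const_mul _) (fun y => ?_)
  have := g.pointwise_dir y (hb1 y) ht hts hs
  refine le_trans (le_of_eq ?_) this
  congr 1
  rw [zero_mul]
  ring

lemma sec_zero_pos (g : Good H κ c L) (b : U → ℝ) : 0 < sec ν H κ b 0 := by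
  unfold sec
  simp only [zero_mul]
  have i := g.int_sec ν (b := fun _ => 0) continuous_const 0
  simp only [mul_zero] at i
  exact integral_pos_of_integrable_nonneg_nonzero (x := 0) g.dens0_cont i
    (fun y => (dens_pos _ _).le) (dens_pos _ _).ne'

lemma abs_dd_sec (g : Good H κ c L) {b : U → ℝ} (hb : Continuous b) (hb1 : ∀ y, |b y| ≤ 2 * ‖y‖)
    {ε : ℝ} (hε : 0 < ε) (hε1 : ε ≤ 1 / 2) :
    |dd (sec ν H κ b) ε| ≤ ((192 * L ^ 2 + 80 * L) * ∫ y, wt c y ∂ν) * ε ^ 2 := by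
  have h := (dd_integral ν (fun y η => dens H κ η y) b (g.int_sec ν hb) ε).2
  have e0 : sec ν H κ b = fun s => ∫ y, dens H κ (s * b y) y ∂ν := rfl
  rw [e0, h]
  have e : ((192 * L ^ 2 + 80 * L) * ∫ y, wt c y ∂ν) * ε ^ 2
      = ∫ y, (192 * L ^ 2 + 80 * L) * ε ^ 2 * wt c y ∂ν := by
    rw [integral_const_mul]; ring
  rw [e]
  refine abs_integral_le ((wt_integrable ν g.cpos).const_mul _) (fun y => ?_)
  rw [← dd_abs]
  apply g.pointwise_dd y (abs_nonneg _) hε1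
  rw [abs_mul, abs_of_pos hε]
  gcongr
  exact hb1 y

end Good

end Pool.Agent.MP_2c685a_gt
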