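import Mathlib
import Pool.Agent.MP_2c685a_gt.Core

set_option autoImplicit false

open MeasureTheory Set

namespace Pool.Agent.MP_2c685a_gt

lemma dir_step {a h : ℝ → ℝ} {ε l Φ K γ θ : ℝ} (ha : 0 < a 0) (hε : 0 < ε) (hε1 : 2 * ε ≤ 1)
    (hγ : 0 < γ) (hl : |l| ≤ K) (hΦ : |Φ| ≤ K) (hsm : 3 * K * (2 * ε) ≤ a 0 / 2)
    (hexp : ∀ s, ε ≤ |s| → |s| ≤ 1 → |a s - a 0 + s * l + |s| * Φ| ≤ K * s ^ 2)
    (hh : ∀ s, |s| ≤ 1 → |h s * a s - γ| ≤ θ * (a 0 / 2)) :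
    |dd h ε + γ * dd a ε / a 0 ^ 2 - 4 * γ * ε ^ 2 * (l ^ 2 + Φ ^ 2) / a 0 ^ 3|
      ≤ 8 * θ + γ * (20 * (54 * K ^ 3 / a 0 ^ 4 + 5 * K ^ 2 / a 0 ^ 3)) * ε ^ 3 := by
  have hK : 0 ≤ K := le_trans (abs_nonneg _) hl
  have h1 := dd_inv ha hε hε1 hl hΦ hsm hexp
  have key : ∀ s, a 0 / 2 ≤ a s → |s| ≤ 1 → |h s - γ * (1 / a s)| ≤ θ := by
    intro s hs hs1
    have hpos : 0 < a s := by linarith
    have e : h s - γ * (1 / a s) = (h s * a s - γ) / a s := by field_simp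
    have hθ : 0 ≤ θ * (a 0 / 2) := le_trans (abs_nonneg _) (hh s hs1)
    have hθ' : 0 ≤ θ := by
      by_contra hcon
      push Not at hcon
      nlinarith
    rw [e, abs_div, abs_of_pos hpos, div_le_iff₀ hpos]
    exact le_trans (hh s hs1) (by gcongr)
  have low : ∀ s, ε ≤ |s| → |s| ≤ 2 * ε → a 0 / 2 ≤ a s := by
    intro s h1 h2
    have h3 := hexp s h1 (by linarith)
    have hs0 := abs_nonneg s
    have b1 : |s * l| ≤ |s| * K := by rw [abs_mul]; gcongr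
    have b2 : |(|s| * Φ)| ≤ |s| * K := by rw [abs_mul, abs_abs]; gcongr
    have b3 : K * s ^ 2 ≤ |s| * K := by
      rw [← sq_abs]
      have : |s| ≤ 1 := by linarith
      nlinarith [mul_nonneg hK hs0]
    have b4 : |s| * K ≤ 2 * ε * K := by gcongr
    rw [abs_le] at h3 b1 b2
    nlinarith [h3.1, b1.2, b2.2]
  have p1 : |2 * ε| = 2 * ε := abs_of_pos (by linarith)
  have p2 : |-(2 * ε)| = 2 * ε := by rw [abs_neg, p1]
  have p3 : |ε| = ε := abs_of_pos hε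
  have p4 : |-ε| = ε := by rw [abs_neg, p3]
  have k1 := key (2 * ε) (low _ (by rw [p1]; linarith) (by rw [p1])) (by rw [p1]; linarith)
  have k2 := key (-(2 * ε)) (low _ (by rw [p2]; linarith) (by rw [p2])) (by rw [p2]; linarith)
  have k3 := key ε (low _ (by rw [p3]) (by rw [p3]; linarith)) (by rw [p3]; linarith)
  have k4 := key (-ε) (low _ (by rw [p4]) (by rw [p4]; linarith)) (by rw [p4]; linarith)
  have k5 := key 0 (by linarith) (by simp)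
  have h2 : |dd h ε - γ * dd (fun s => 1 / a s) ε| ≤ 8 * θ := by
    simp only [dd]
    rw [abs_le] at k1 k2 k3 k4 k5 ⊢
    constructor <;> nlinarith [k1.1, k1.2, k2.1, k2.2, k3.1, k3.2, k4.1, k4.2, k5.1, k5.2]
  have e : dd h ε + γ * dd a ε / a 0 ^ 2 - 4 * γ * ε ^ 2 * (l ^ 2 + Φ ^ 2) / a 0 ^ 3
      = (dd h ε - γ * dd (fun s => 1 / a s) ε)
        + γ * (dd (fun s => 1 / a s) ε + dd a ε / a 0 ^ 2
          - 4 * ε ^ 2 * (l ^ 2 + Φ ^ 2) / a 0 ^ 3) := by ring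
  rw [e]
  refine le_trans (abs_add_le _ _) (add_le_add h2 ?_)
  rw [abs_mul, abs_of_pos hγ, mul_assoc γ]
  exact mul_le_mul_of_nonneg_left h1 hγ.le

lemma dir_step2 {X Y ε l Φ K K₂ γ θ a M : ℝ} (ha : 0 < a) (hε : 0 < ε) (hε1 : ε ≤ 1)
    (hγ : 0 < γ) (hl : |l| ≤ K) (hΦ : |Φ| ≤ K) (hM : 0 ≤ M) (hY : |Y| ≤ K₂ * ε ^ 2)
    (h : |X + γ * Y / a ^ 2 - 4 * γ * ε ^ 2 * (l ^ 2 + Φ ^ 2) / a ^ 3| ≤ 8 * θ + M * ε ^ 3) :
    |X| ≤ 8 * θ + (M + γ * K₂ / a ^ 2 + 8 * γ * K ^ 2 / a ^ 3) * ε ^ 2 := by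
  have h1 : |γ * Y / a ^ 2| ≤ γ * K₂ / a ^ 2 * ε ^ 2 := by
    rw [abs_div, abs_mul, abs_of_pos hγ, abs_of_pos (by positivity : 0 < a ^ 2)]
    calc γ * |Y| / a ^ 2 ≤ γ * (K₂ * ε ^ 2) / a ^ 2 := by gcongr
      _ = _ := by ring
  have h2 : |4 * γ * ε ^ 2 * (l ^ 2 + Φ ^ 2) / a ^ 3| ≤ 8 * γ * K ^ 2 / a ^ 3 * ε ^ 2 := by
    rw [abs_of_nonneg (by positivity)]
    have b1 : l ^ 2 ≤ K ^ 2 := by rw [← sq_abs l]; gcongr
    have b2 : Φ ^ 2 ≤ K ^ 2 := by rw [← sq_abs Φ]; gcongr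
    calc 4 * γ * ε ^ 2 * (l ^ 2 + Φ ^ 2) / a ^ 3 ≤ 4 * γ * ε ^ 2 * (K ^ 2 + K ^ 2) / a ^ 3 := by
          gcongr
      _ = _ := by ring
  have h3 : M * ε ^ 3 ≤ M * ε ^ 2 := by
    gcongr ?_ * ?_
    exact pow_le_pow_of_le_one hε.le hε1 (by norm_num)
  rw [abs_le] at h h1 h2 ⊢
  constructor <;> linarith [h.1, h.2, h1.1, h1.2, h2.1, h2.2]

lemma final_step {X Y : ℝ → ℝ} {δ e A B C₁ C₂ C₃ : ℝ} (hδ : 0 < δ) (he : δ ≤ e) (he1 : e ≤ 1)
    (iX : IntervalIntegrable (fun ε => X ε / ε ^ 3) volume δ e)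
    (iY : IntervalIntegrable (fun ε => Y ε / ε ^ 3) volume δ e)
    (hX : |∫ ε in δ..e, X ε / ε ^ 3| ≤ C₁) (hY : |∫ ε in δ..e, Y ε / ε ^ 3| ≤ C₂) (hA : 0 ≤ A)
    (hR : ∀ ε, δ ≤ ε → ε ≤ e → |X ε + A * Y ε - B * ε ^ 2| ≤ C₃ * ε ^ 3) :
    |B| * Real.log (e / δ) ≤ C₁ + A * C₂ + C₃ := by
  have he0 : 0 < e := lt_of_lt_of_le hδ he
  have hC₃ : 0 ≤ C₃ := by
    have h1 := le_trans (abs_nonneg _) (hR δ le_rfl he)
    have : 0 < δ ^ 3 := by positivity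
    by_contra hcon
    push Not at hcon
    nlinarith
  have iI : IntervalIntegrable (fun ε : ℝ => ε⁻¹) volume δ e := by
    apply ContinuousOn.intervalIntegrable
    apply continuousOn_inv₀.mono
    intro x hx
    rw [uIcc_of_le he] at hx
    exact (lt_of_lt_of_le hδ hx.1).ne'
  have e1 : ∫ ε in δ..e, (X ε / ε ^ 3 + A * (Y ε / ε ^ 3) - B * ε⁻¹)
      = (∫ ε in δ..e, X ε / ε ^ 3) + A * (∫ ε in δ..e, Y ε / ε ^ 3) - B * Real.log (e / δ) := by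
    have j1 : IntervalIntegrable (fun ε => A * (Y ε / ε ^ 3)) volume δ e := iY.const_mul A
    have j2 : IntervalIntegrable (fun ε => X ε / ε ^ 3 + A * (Y ε / ε ^ 3)) volume δ e :=
      iX.add j1
    have j3 : IntervalIntegrable (fun ε : ℝ => B * ε⁻¹) volume δ e := iI.const_mul B
    rw [intervalIntegral.integral_sub j2 j3, intervalIntegral.integral_add iX j1,
      intervalIntegral.integral_const_mul, intervalIntegral.integral_const_mul,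
      integral_inv_of_pos hδ he0]
  have e2 : ‖∫ ε in δ..e, (X ε / ε ^ 3 + A * (Y ε / ε ^ 3) - B * ε⁻¹)‖ ≤ C₃ * |e - δ| := by
    apply intervalIntegral.norm_integral_le_of_norm_le_const
    intro ε hε
    rw [uIoc_of_le he] at hε
    have hε0 : 0 < ε := lt_trans hδ hε.1
    have : X ε / ε ^ 3 + A * (Y ε / ε ^ 3) - B * ε⁻¹ = (X ε + A * Y ε - B * ε ^ 2) / ε ^ 3 := by
      field_simp
    rw [this, Real.norm_eq_abs, abs_div, abs_of_pos (by positivity : 0 < ε ^ 3),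
      div_le_iff₀ (by positivity)]
    exact hR ε hε.1.le hε.2
  rw [e1, Real.norm_eq_abs, abs_of_nonneg (by linarith : 0 ≤ e - δ)] at e2
  have e3 : C₃ * (e - δ) ≤ C₃ := by nlinarith
  have hlog : 0 ≤ Real.log (e / δ) := Real.log_nonneg (by rw [le_div_iff₀ hδ]; linarith)
  have e4 : |A * ∫ ε in δ..e, Y ε / ε ^ 3| ≤ A * C₂ := by
    rw [abs_mul, abs_of_nonneg hA]; gcongr
  rw [← abs_of_nonneg hlog, ← abs_mul]
  rw [abs_le] at e2 e4 hX ⊢
  constructor <;> linarith [e2.1, e2.2, e4.1, e4.2, hX.1, hX.2]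

variable {U : Type*} [NormedAddCommGroup U] [NormedSpace ℝ U] [FiniteDimensional ℝ U]
  [MeasurableSpace U] [BorelSpace U] (ν : Measure U) [ν.IsAddHaarMeasure]

theorem core {Ω : Type*} [TopologicalSpace Ω] [MeasurableSpace Ω] [OpensMeasurableSpace Ω]
    [SecondCountableTopology Ω] {H : ℝ → U → ℝ} {κ : U → ℝ} {c L : ℝ} (g : Good H κ c L)
    {p q : U → ℝ} (hp : Continuous p) (hq : Continuous q) (hp1 : ∀ y, |p y| ≤ ‖y‖)
    (hq1 : ∀ y, |q y| ≤ ‖y‖) {γ : ℝ} (hγ : 0 < γ)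
    (hP : Phi ν H κ (fun y => p y + q y) ^ 2 + Phi ν H κ (fun y => p y - q y) ^ 2
      - 2 * Phi ν H κ p ^ 2 - 2 * Phi ν H κ q ^ 2 ≠ 0) :
    ∃ θ : ℝ, 0 < θ ∧ ∀ (μ : Measure Ω) [SFinite μ] (η x z : Ω → ℝ), Continuous η → Continuous x →
      Continuous z → Integrable η μ → Integrable x μ → Integrable z μ →
      ¬ ∀ α β : ℝ, |α| ≤ 1 → |β| ≤ 1 →
        |(∫ ω, |η ω - (α * x ω + β * z ω)| ∂μ) * (∫ y, dens H κ (α * p y + β * q y) y ∂ν) - γ|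
          ≤ θ := by
  have hL := g.Lnn
  set P := Phi ν H κ (fun y => p y + q y) ^ 2 + Phi ν H κ (fun y => p y - q y) ^ 2
      - 2 * Phi ν H κ p ^ 2 - 2 * Phi ν H κ q ^ 2 with hPdef
  set W := ∫ y, wt c y ∂ν with hW
  have hW0 : 0 ≤ W := integral_nonneg fun y => wt_nonneg c y
  set a₀ := ∫ y, dens H κ 0 y ∂ν with ha₀
  have hsec0 : ∀ b : U → ℝ, sec ν H κ b 0 = a₀ := by
    intro b; simp only [sec, zero_mul, ha₀]
  have ha : 0 < a₀ := by rw [← hsec0 p]; exact g.sec_zero_pos ν p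
  set K := (16 * L ^ 2 + 6 * L) * W with hK
  have hK0 : 0 ≤ K := by positivity
  have hK1 : 6 * L * W ≤ K := by rw [hK]; gcongr; nlinarith [sq_nonneg L]
  set K₂ := (192 * L ^ 2 + 80 * L) * W with hK₂
  have hK₂0 : 0 ≤ K₂ := by positivity
  set M := γ * (20 * (54 * K ^ 3 / a₀ ^ 4 + 5 * K ^ 2 / a₀ ^ 3)) with hM
  have hM0 : 0 ≤ M := by positivity
  set C₁ := M + γ * K₂ / a₀ ^ 2 + 8 * γ * K ^ 2 / a₀ ^ 3 with hC₁
  have hC₁0 : 0 ≤ C₁ := by positivity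
  set e := min (1 / 2) (a₀ / (12 * K + 1)) with he
  have he0 : 0 < e := lt_min (by norm_num) (by positivity)
  have he1 : e ≤ 1 / 2 := min_le_left _ _
  have he2 : 3 * K * (2 * e) ≤ a₀ / 2 := by
    have h1 : e ≤ a₀ / (12 * K + 1) := min_le_right _ _
    rw [le_div_iff₀ (by positivity)] at h1
    nlinarith
  set B := 4 * γ * P / a₀ ^ 3 with hB
  have hB0 : 0 < |B| := abs_pos.2 (by rw [hB]; positivity)
  set CT := (96 + 12 * C₁) + γ / a₀ ^ 2 * (6 * K₂) + 6 * (8 + M) with hCT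
  have hCT0 : 0 ≤ CT := by positivity
  set T := (CT + 1) / |B| with hT
  have hT0 : 0 ≤ T := by positivity
  set δ := e * Real.exp (-T) with hδ
  have hδ0 : 0 < δ := by positivity
  have hδe : δ ≤ e := by
    rw [hδ]
    have : Real.exp (-T) ≤ 1 := Real.exp_le_one_iff.2 (by linarith)
    nlinarith
  have hδ1 : δ ≤ 1 := by linarith
  have hlog : Real.log (e / δ) = T := by
    rw [hδ, Real.exp_neg, show e / (e * (Real.exp T)⁻¹) = Real.exp T by field_simp, Real.log_exp]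
  refine ⟨δ ^ 3 * (a₀ / 2), by positivity, ?_⟩
  intro μ _ η x z hη hx hz iη ix iz hcon
  -- one direction
  have dir : ∀ (b : U → ℝ) (w : Ω → ℝ), Continuous b → (∀ y, |b y| ≤ 2 * ‖y‖) → Integrable w μ →
      (∀ s, |s| ≤ 1 → |(∫ ω, |η ω - s * w ω| ∂μ) * sec ν H κ b s - γ| ≤ δ ^ 3 * (a₀ / 2)) →
      ∀ ε, δ ≤ ε → ε ≤ e → Integrable (fun ω => tent (η ω) (ε * w ω)) μ ∧
        Integrable (fun y => dd (fun s => dens H κ s y) (ε * b y)) ν ∧
        |(∫ ω, tent (η ω) (ε * w ω) ∂μ)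
          + γ * (∫ y, dd (fun s => dens H κ s y) (ε * b y) ∂ν) / a₀ ^ 2
          - 4 * γ * ε ^ 2 * (ell ν H κ δ b ^ 2 + Phi ν H κ b ^ 2) / a₀ ^ 3|
            ≤ 8 * δ ^ 3 + M * ε ^ 3 ∧
        |∫ ω, tent (η ω) (ε * w ω) ∂μ| ≤ 8 * δ ^ 3 + C₁ * ε ^ 2 := by
    intro b w hb hb1 iw hh ε h1 h2
    have hε : 0 < ε := lt_of_lt_of_le hδ0 h1
    have d1 := dd_integral μ (fun ω s => |η ω - s|) w
      (fun s => (iη.sub (iw.const_mul s)).abs) ε
    have d2 := dd_integral ν (fun y s => dens H κ s y) b (g.int_sec ν hb) ε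
    have hl := le_trans (g.abs_ell_le ν hb1 hδ0 hδ1) hK1
    have hΦ := le_trans (g.abs_Phi_le ν hb1) hK1
    have s1 := dir_step (a := sec ν H κ b) (h := fun s => ∫ ω, |η ω - s * w ω| ∂μ) (ε := ε)
      (θ := δ ^ 3) (by rw [hsec0]; exact ha) hε (by linarith) hγ hl hΦ
      (by rw [hsec0]; nlinarith)
      (fun s h3 h4 => g.sec_expand ν hb hb1 hδ0 (le_trans h1 h3) h4)
      (by rw [hsec0]; exact hh)
    have s2 := g.abs_dd_sec ν hb hb1 hε (by linarith)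
    have e0 : sec ν H κ b = fun s => ∫ y, dens H κ (s * b y) y ∂ν := rfl
    rw [hsec0] at s1
    rw [e0, d2.2] at s1 s2
    rw [d1.2] at s1
    exact ⟨d1.1, d2.1, s1, dir_step2 ha hε (by linarith) hγ hl hΦ hM0 s2 s1⟩
  have n1 : ∀ y, |p y| ≤ 2 * ‖y‖ := fun y => by linarith [hp1 y, norm_nonneg y]
  have n2 : ∀ y, |q y| ≤ 2 * ‖y‖ := fun y => by linarith [hq1 y, norm_nonneg y]
  have n3 : ∀ y, |p y + q y| ≤ 2 * ‖y‖ := fun y => by linarith [hp1 y, hq1 y, abs_add_le (p y) (q y)]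
  have n4 : ∀ y, |p y - q y| ≤ 2 * ‖y‖ := fun y => by linarith [hp1 y, hq1 y, abs_sub (p y) (q y)]
  have D1 := dir p x hp n1 ix (fun s hs => by
    have := hcon s 0 hs (by simp)
    simpa only [zero_mul, add_zero, sec] using this)
  have D2 := dir q z hq n2 iz (fun s hs => by
    have := hcon 0 s (by simp) hs
    simpa only [zero_mul, zero_add, sec] using this)
  have D3 := dir (fun y => p y + q y) (fun ω => x ω + z ω) (hp.add hq) n3 (ix.add iz)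
    (fun s hs => by
      have := hcon s s hs hs
      simpa only [mul_add, sec] using this)
  have D4 := dir (fun y => p y - q y) (fun ω => x ω - z ω) (hp.sub hq) n4 (ix.sub iz)
    (fun s hs => by
      have := hcon s (-s) hs (by rwa [abs_neg])
      simpa only [mul_sub, sec, neg_mul, ← sub_eq_add_neg] using this)
  -- the measure side
  have tc : Continuous (Function.uncurry fun (ω : Ω) (a : ℝ) => tent (η ω) a) := by
    have : (Function.uncurry fun (ω : Ω) (a : ℝ) => tent (η ω) a) = fun z : Ω × ℝ =>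
        |η z.1 - 2 * z.2| + |η z.1 - -(2 * z.2)| - 2 * |η z.1 - z.2| - 2 * |η z.1 - -z.2|
          + 2 * |η z.1 - 0| := by
      funext z; rfl
    rw [this]
    fun_prop
  have S1 := integrated_scale μ (φ := fun ω a => tent (η ω) a) tc (fun ω => dd_zero _)
    (fun ω a => dd_even _ a) hx hz hδ0 hδe
    (B₁ := fun ω => tent (η ω) (δ * (x ω + z ω)) + tent (η ω) (δ * (x ω - z ω)))
    (B₂ := fun ω => tent (η ω) (e * (x ω + z ω)) + tent (η ω) (e * (x ω - z ω)))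
    ((D3 δ le_rfl hδe).1.add (D4 δ le_rfl hδe).1) ((D3 e hδe le_rfl).1.add (D4 e hδe le_rfl).1)
    (fun ω a h1 h2 => tent_le _ _ _ hδ0.le h1 h2) (fun ω a h1 h2 => tent_le _ _ _ he0.le h1 h2)
  have S1b : 3 * (∫ ω, tent (η ω) (δ * (x ω + z ω)) + tent (η ω) (δ * (x ω - z ω)) ∂μ) / δ ^ 2
      + 3 * (∫ ω, tent (η ω) (e * (x ω + z ω)) + tent (η ω) (e * (x ω - z ω)) ∂μ) / e ^ 2
      ≤ 96 + 12 * C₁ := by
    rw [integral_add (D3 δ le_rfl hδe).1 (D4 δ le_rfl hδe).1,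
      integral_add (D3 e hδe le_rfl).1 (D4 e hδe le_rfl).1]
    have b1 := (abs_le.1 (D3 δ le_rfl hδe).2.2.2).2
    have b2 := (abs_le.1 (D4 δ le_rfl hδe).2.2.2).2
    have b3 := (abs_le.1 (D3 e hδe le_rfl).2.2.2).2
    have b4 := (abs_le.1 (D4 e hδe le_rfl).2.2.2).2
    have q1 : δ ^ 3 ≤ δ ^ 2 := pow_le_pow_of_le_one hδ0.le hδ1 (by norm_num)
    have q2 : δ ^ 2 ≤ e ^ 2 := by gcongr
    have r1 : 3 * ((∫ ω, tent (η ω) (δ * (x ω + z ω)) ∂μ)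
        + ∫ ω, tent (η ω) (δ * (x ω - z ω)) ∂μ) / δ ^ 2 ≤ 48 + 6 * C₁ := by
      rw [div_le_iff₀ (by positivity)]; nlinarith
    have r2 : 3 * ((∫ ω, tent (η ω) (e * (x ω + z ω)) ∂μ)
        + ∫ ω, tent (η ω) (e * (x ω - z ω)) ∂μ) / e ^ 2 ≤ 48 + 6 * C₁ := by
      rw [div_le_iff₀ (by positivity)]; nlinarith
    linarith
  -- the section side
  have dc : Continuous (Function.uncurry fun (y : U) (a : ℝ) => dd (fun s => dens H κ s y) a) := by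
    have h0 := g.dens_cont
    have h1 : ∀ f : ℝ → ℝ, Continuous f → Continuous fun z : U × ℝ => dens H κ (f z.2) z.1 :=
      fun f hf => h0.comp ((hf.comp continuous_snd).prodMk continuous_fst)
    exact ((((h1 (fun a => 2 * a) (by fun_prop)).add (h1 (fun a => -(2 * a)) (by fun_prop))).sub
      (continuous_const.mul (h1 (fun a => a) (by fun_prop)))).sub
      (continuous_const.mul (h1 (fun a => -a) (by fun_prop)))).add
      (continuous_const.mul (h1 (fun _ => 0) (by fun_prop)))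
  have hsum : ∀ y, |p y| + |q y| ≤ 2 * ‖y‖ := fun y => by linarith [hp1 y, hq1 y]
  have S2 := integrated_scale ν (φ := fun y a => dd (fun s => dens H κ s y) a) dc
    (fun y => dd_zero _) (fun y a => dd_even _ a) hp hq hδ0 hδe
    (B₁ := fun y => (192 * L ^ 2 + 80 * L) * δ ^ 2 * wt c y)
    (B₂ := fun y => (192 * L ^ 2 + 80 * L) * e ^ 2 * wt c y)
    ((wt_integrable ν g.cpos).const_mul _) ((wt_integrable ν g.cpos).const_mul _)
    (fun y a h1 h2 => g.pointwise_dd y h1 (by linarith)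
      (le_trans h2 (by gcongr; exact hsum y)))
    (fun y a h1 h2 => g.pointwise_dd y h1 he1 (le_trans h2 (by gcongr; exact hsum y)))
  have S2b : 3 * (∫ y, (192 * L ^ 2 + 80 * L) * δ ^ 2 * wt c y ∂ν) / δ ^ 2
      + 3 * (∫ y, (192 * L ^ 2 + 80 * L) * e ^ 2 * wt c y ∂ν) / e ^ 2 = 6 * K₂ := by
    rw [integral_const_mul, integral_const_mul, hK₂]
    field_simp
    ring
  have hell : ell ν H κ δ (fun y => p y + q y) = ell ν H κ δ p + ell ν H κ δ q ∧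
      ell ν H κ δ (fun y => p y - q y) = ell ν H κ δ p - ell ν H κ δ q := by
    have i1 := g.int_ell ν hp n1 hδ0 hδ1
    have i2 := g.int_ell ν hq n2 hδ0 hδ1
    unfold ell
    rw [← integral_add i1 i2, ← integral_sub i1 i2]
    constructor
    · congr 1; funext y; ring
    · congr 1; funext y; ring
  have F := final_step (A := γ / a₀ ^ 2) (B := B) (C₃ := 6 * (8 + M)) hδ0 hδe (by linarith)
    S1.1 S2.1 (le_trans S1.2 S1b) (le_trans S2.2 S2b.le) (by positivity) (by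
      intro ε h1 h2
      have hε : 0 < ε := lt_of_lt_of_le hδ0 h1
      obtain ⟨i1, j1, k1, -⟩ := D1 ε h1 h2
      obtain ⟨i2, j2, k2, -⟩ := D2 ε h1 h2
      obtain ⟨i3, j3, k3, -⟩ := D3 ε h1 h2
      obtain ⟨i4, j4, k4, -⟩ := D4 ε h1 h2
      rw [pdef_integral μ (fun ω a => tent (η ω) a) x z ε i3 i4 i1 i2,
        pdef_integral ν (fun y a => dd (fun s => dens H κ s y) a) p q ε j3 j4 j1 j2]
      rw [hell.1] at k3
      rw [hell.2] at k4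
      have q1 : δ ^ 3 ≤ ε ^ 3 := by gcongr
      set X1 := ∫ ω, tent (η ω) (ε * x ω) ∂μ
      set X2 := ∫ ω, tent (η ω) (ε * z ω) ∂μ
      set X3 := ∫ ω, tent (η ω) (ε * (x ω + z ω)) ∂μ
      set X4 := ∫ ω, tent (η ω) (ε * (x ω - z ω)) ∂μ
      set Y1 := ∫ y, dd (fun s => dens H κ s y) (ε * p y) ∂ν
      set Y2 := ∫ y, dd (fun s => dens H κ s y) (ε * q y) ∂ν
      set Y3 := ∫ y, dd (fun s => dens H κ s y) (ε * (p y + q y)) ∂ν
      set Y4 := ∫ y, dd (fun s => dens H κ s y) (ε * (p y - q y)) ∂ν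
      set l1 := ell ν H κ δ p
      set l2 := ell ν H κ δ q
      have eq : X3 + X4 - 2 * X1 - 2 * X2 + γ / a₀ ^ 2 * (Y3 + Y4 - 2 * Y1 - 2 * Y2) - B * ε ^ 2
          = (X3 + γ * Y3 / a₀ ^ 2 - 4 * γ * ε ^ 2 *
              ((l1 + l2) ^ 2 + Phi ν H κ (fun y => p y + q y) ^ 2) / a₀ ^ 3)
            + (X4 + γ * Y4 / a₀ ^ 2 - 4 * γ * ε ^ 2 *
              ((l1 - l2) ^ 2 + Phi ν H κ (fun y => p y - q y) ^ 2) / a₀ ^ 3)
            - 2 * (X1 + γ * Y1 / a₀ ^ 2 - 4 * γ * ε ^ 2 * (l1 ^ 2 + Phi ν H κ p ^ 2) / a₀ ^ 3)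
            - 2 * (X2 + γ * Y2 / a₀ ^ 2 - 4 * γ * ε ^ 2 * (l2 ^ 2 + Phi ν H κ q ^ 2) / a₀ ^ 3) := by
        rw [hB, hPdef]; ring
      rw [eq]
      rw [abs_le] at k1 k2 k3 k4 ⊢
      constructor <;> linarith [k1.1, k1.2, k2.1, k2.2, k3.1, k3.2, k4.1, k4.2])
  rw [hlog, hT, mul_div_cancel₀ _ hB0.ne'] at F
  linarith

end Pool.Agent.MP_2c685a_gt
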