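import Mathlib
import Pool.Agent.MP_2c685a_gt.Core

set_option autoImplicit false

open MeasureTheory Set

namespace Pool.Agent.MP_2c685a_gt

variable {U : Type*} [NormedAddCommGroup U] [NormedSpace ℝ U] [FiniteDimensional ℝ U]
  [MeasurableSpace U] [BorelSpace U] (ν : Measure U) [ν.IsAddHaarMeasure]

/-- parallelogram defect of the ridge term -/
noncomputable def Pdef (H : ℝ → U → ℝ) (κ : U → ℝ) (p q : U → ℝ) : ℝ :=
  Phi ν H κ (fun y => p y + q y) ^ 2 + Phi ν H κ (fun y => p y - q y) ^ 2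
      - 2 * Phi ν H κ p ^ 2 - 2 * Phi ν H κ q ^ 2

lemma aux_id (p q : ℝ) : (|p + q| + |p - q| - 2 * |p|) * (|p + q| + |p - q| - |2 * q|) = 0 := by
  rw [abs_mul, abs_two]
  rcases abs_cases (p + q) with h1 | h1 <;> rcases abs_cases (p - q) with h2 | h2 <;>
    rcases abs_cases p with h3 | h3 <;> rcases abs_cases q with h4 | h4 <;>
    first
    | (apply mul_eq_zero_of_left; linarith [h1.1, h1.2, h2.1, h2.2, h3.1, h3.2, h4.1, h4.2])
    | (apply mul_eq_zero_of_right; linarith [h1.1, h1.2, h2.1, h2.2, h3.1, h3.2, h4.1, h4.2])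

lemma aux_nn1 (p q : ℝ) : 0 ≤ |p + q| + |p - q| - |2 * q| := by
  have := abs_sub (p + q) (p - q)
  rw [show p + q - (p - q) = 2 * q by ring] at this
  linarith

lemma aux_nn2 (p q : ℝ) : 0 ≤ 2 * |q| - |p + q| + |p - q| := by
  have := abs_add_le (p - q) (2 * q)
  rw [show p - q + 2 * q = p + q by ring, abs_mul, abs_two] at this
  linarith

lemma aux_nn3 (p q : ℝ) : 0 ≤ 2 * |q| + |p + q| - |p - q| := by
  have := abs_sub (p + q) (2 * q)
  rw [show p + q - 2 * q = p - q by ring, abs_mul, abs_two] at this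
  linarith

theorem nondeg {H : ℝ → U → ℝ} {c L τ : ℝ} (hτ : 0 < τ) {p q : U → ℝ} (hp : Continuous p)
    (hq : Continuous q) (hp1 : ∀ y, |p y| ≤ ‖y‖) (hq1 : ∀ y, |q y| ≤ ‖y‖)
    {y₁ y₂ : U} (h11 : p y₁ = 2) (h12 : q y₁ = 1) (h21 : p y₂ = 2) (h22 : q y₂ = -1)
    (ga : Good H (fun y => τ * (|p y + q y| + |p y - q y|)) c L)
    (gb : Good H (fun y => τ * |2 * q y|) c L) :
    Pdef ν H (fun y => τ * (|p y + q y| + |p y - q y|)) p q ≠ 0 ∨
    Pdef ν H (fun y => τ * |2 * q y|) p q ≠ 0 ∨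
    Pdef ν H (fun y => τ * (|p y + q y| + |p y - q y| + |2 * q y|)) p q ≠ 0 := by
  set κa : U → ℝ := fun y => τ * (|p y + q y| + |p y - q y|) with hκa
  set κb : U → ℝ := fun y => τ * |2 * q y| with hκb
  set κc : U → ℝ := fun y => τ * (|p y + q y| + |p y - q y| + |2 * q y|) with hκc
  set D : U → ℝ := fun y => Real.exp (-(H 0 y)) with hD
  have hDc : Continuous D := by
    have := ga.dens0_cont
    simpa only [Good.dens_zero] using this
  have hD0 : ∀ y, 0 < D y := fun y => Real.exp_pos _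
  have n1 : ∀ y, |p y| ≤ 2 * ‖y‖ := fun y => by linarith [hp1 y, norm_nonneg y]
  have n2 : ∀ y, |q y| ≤ 2 * ‖y‖ := fun y => by linarith [hq1 y, norm_nonneg y]
  have n3 : ∀ y, |p y + q y| ≤ 2 * ‖y‖ := fun y => by linarith [hp1 y, hq1 y, abs_add_le (p y) (q y)]
  have n4 : ∀ y, |p y - q y| ≤ 2 * ‖y‖ := fun y => by linarith [hp1 y, hq1 y, abs_sub (p y) (q y)]
  have ia : ∀ b : U → ℝ, Continuous b → (∀ y, |b y| ≤ 2 * ‖y‖) →
      Integrable (fun y => |b y| * κa y * D y) ν := fun b hb hb1 => by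
    simpa only [Good.dens_zero] using ga.int_Phi ν hb hb1
  have ib : ∀ b : U → ℝ, Continuous b → (∀ y, |b y| ≤ 2 * ‖y‖) →
      Integrable (fun y => |b y| * κb y * D y) ν := fun b hb hb1 => by
    simpa only [Good.dens_zero] using gb.int_Phi ν hb hb1
  have ePhi : ∀ (κ b : U → ℝ), Phi ν H κ b = ∫ y, |b y| * κ y * D y ∂ν := by
    intro κ b; simp only [Phi, Good.dens_zero, hD]
  have eadd : ∀ b : U → ℝ, Continuous b → (∀ y, |b y| ≤ 2 * ‖y‖) →
      Phi ν H κc b = Phi ν H κa b + Phi ν H κb b := by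
    intro b hb hb1
    rw [ePhi, ePhi, ePhi, ← integral_add (ia b hb hb1) (ib b hb hb1)]
    congr 1; funext y; simp only [hκa, hκb, hκc]; ring
  have isub : ∀ b : U → ℝ, Continuous b → (∀ y, |b y| ≤ 2 * ‖y‖) →
      Integrable (fun y => |b y| * (κa y - κb y) * D y) ν ∧
      ∫ y, |b y| * (κa y - κb y) * D y ∂ν = Phi ν H κa b - Phi ν H κb b := by
    intro b hb hb1
    have e : (fun y => |b y| * (κa y - κb y) * D y)
        = fun y => |b y| * κa y * D y - |b y| * κb y * D y := by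
      funext y; ring
    rw [e, ePhi, ePhi]
    exact ⟨(ia b hb hb1).sub (ib b hb hb1), integral_sub (ia b hb hb1) (ib b hb hb1)⟩
  obtain ⟨i1, e1⟩ := isub p hp n1
  obtain ⟨i2, e2⟩ := isub q hq n2
  obtain ⟨i3, e3⟩ := isub (fun y => p y + q y) (hp.add hq) n3
  obtain ⟨i4, e4⟩ := isub (fun y => p y - q y) (hp.sub hq) n4
  have hk : ∀ y, κa y - κb y = τ * (|p y + q y| + |p y - q y| - |2 * q y|) := by
    intro y; simp only [hκa, hκb]; ring
  have hkc : Continuous (fun y => κa y - κb y) := ga.κc.sub gb.κc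
  have hk0 : ∀ y, 0 ≤ κa y - κb y := fun y => by
    rw [hk]; exact mul_nonneg hτ.le (aux_nn1 _ _)
  have r1 := integral_comb i1 i2 i3 i4 i4 (-2) 0 1 1 0
  have r2 := integral_comb i1 i2 i3 i4 i4 0 2 (-1) 1 0
  have r3 := integral_comb i1 i2 i3 i4 i4 0 2 1 (-1) 0
  rw [e1, e2, e3, e4] at r1 r2 r3
  have z1 : ∫ y, -2 * (|p y| * (κa y - κb y) * D y) + 0 * (|q y| * (κa y - κb y) * D y)
      + 1 * (|p y + q y| * (κa y - κb y) * D y) + 1 * (|p y - q y| * (κa y - κb y) * D y)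
      + 0 * (|p y - q y| * (κa y - κb y) * D y) ∂ν = 0 := by
    have : (fun y => -2 * (|p y| * (κa y - κb y) * D y) + 0 * (|q y| * (κa y - κb y) * D y)
      + 1 * (|p y + q y| * (κa y - κb y) * D y) + 1 * (|p y - q y| * (κa y - κb y) * D y)
      + 0 * (|p y - q y| * (κa y - κb y) * D y)) = fun _ => 0 := by
      funext y
      have := aux_id (p y) (q y)
      rw [hk]
      linear_combination (τ * D y) * this
    rw [this, integral_zero]
  have z2 : 0 < ∫ y, 0 * (|p y| * (κa y - κb y) * D y) + 2 * (|q y| * (κa y - κb y) * D y)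
      + -1 * (|p y + q y| * (κa y - κb y) * D y) + 1 * (|p y - q y| * (κa y - κb y) * D y)
      + 0 * (|p y - q y| * (κa y - κb y) * D y) ∂ν := by
    refine integral_pos_of_integrable_nonneg_nonzero (x := y₂) (by fun_prop) r2.1 ?_ ?_
    · intro y
      have := mul_nonneg (mul_nonneg (aux_nn2 (p y) (q y)) (hk0 y)) (hD0 y).le
      simp only [Pi.zero_apply]
      linarith
    · rw [hk, h21, h22]
      have := mul_pos hτ (hD0 y₂)
      apply ne_of_gt
      norm_num
      nlinarith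
  have z3 : 0 < ∫ y, 0 * (|p y| * (κa y - κb y) * D y) + 2 * (|q y| * (κa y - κb y) * D y)
      + 1 * (|p y + q y| * (κa y - κb y) * D y) + -1 * (|p y - q y| * (κa y - κb y) * D y)
      + 0 * (|p y - q y| * (κa y - κb y) * D y) ∂ν := by
    refine integral_pos_of_integrable_nonneg_nonzero (x := y₁) (by fun_prop) r3.1 ?_ ?_
    · intro y
      have := mul_nonneg (mul_nonneg (aux_nn3 (p y) (q y)) (hk0 y)) (hD0 y).le
      simp only [Pi.zero_apply]
      linarith
    · rw [hk, h11, h12]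
      have := mul_pos hτ (hD0 y₁)
      apply ne_of_gt
      norm_num
      nlinarith
  rw [r1.2] at z1
  rw [r2.2] at z2
  rw [r3.2] at z3
  by_contra hcon
  push Not at hcon
  obtain ⟨c1, c2, c3⟩ := hcon
  unfold Pdef at c1 c2 c3
  rw [eadd p hp n1, eadd q hq n2, eadd (fun y => p y + q y) (hp.add hq) n3,
    eadd (fun y => p y - q y) (hp.sub hq) n4] at c3
  set A1 := Phi ν H κa p
  set A2 := Phi ν H κa q
  set A3 := Phi ν H κa (fun y => p y + q y)
  set A4 := Phi ν H κa (fun y => p y - q y)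
  set B1 := Phi ν H κb p
  set B2 := Phi ν H κb q
  set B3 := Phi ν H κb (fun y => p y + q y)
  set B4 := Phi ν H κb (fun y => p y - q y)
  have k : (A3 - B3) ^ 2 + (A4 - B4) ^ 2 - 2 * (A1 - B1) ^ 2 - 2 * (A2 - B2) ^ 2 = 0 := by
    linear_combination 2 * c1 + 2 * c2 - c3
  have k2 : A1 - B1 = ((A3 - B3) + (A4 - B4)) / 2 := by linarith
  rw [k2] at k
  have := mul_pos z2 z3
  nlinarith

end Pool.Agent.MP_2c685a_gt
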