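import Mathlib

set_option autoImplicit false

open Set

namespace Pool.Agent.MP_2c685a_gt

variable {E : Type*} [NormedAddCommGroup E] [InnerProductSpace ℝ E]

/-- squared gauge of the Firey sum of `K` and a ball of radius `ρ` -/
noncomputable def Fk (K : Set E) (ρ : ℝ) (x : E) : ℝ :=
  sInf {r | ∃ t : ℝ, 0 ≤ t ∧ ∃ k ∈ K, r = t ^ 2 + ‖x - t • k‖ ^ 2 / ρ ^ 2}

section F

variable {K : Set E} {ρ : ℝ}

lemma Fk_le {x k : E} {t : ℝ} (ht : 0 ≤ t) (hk : k ∈ K) :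
    Fk K ρ x ≤ t ^ 2 + ‖x - t • k‖ ^ 2 / ρ ^ 2 := by
  apply csInf_le
  · refine ⟨0, ?_⟩
    rintro r ⟨t, -, k, -, rfl⟩
    positivity
  · exact ⟨t, ht, k, hk, rfl⟩

lemma le_Fk (h0 : (0 : E) ∈ K) {x : E} {a : ℝ}
    (h : ∀ t : ℝ, 0 ≤ t → ∀ k ∈ K, a ≤ t ^ 2 + ‖x - t • k‖ ^ 2 / ρ ^ 2) : a ≤ Fk K ρ x := by
  apply le_csInf
  · exact ⟨_, 0, le_rfl, 0, h0, rfl⟩
  · rintro r ⟨t, ht, k, hk, rfl⟩
    exact h t ht k hk

lemma exists_lt_of_Fk_lt (h0 : (0 : E) ∈ K) {x : E} {a : ℝ} (h : Fk K ρ x < a) :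
    ∃ t : ℝ, 0 ≤ t ∧ ∃ k ∈ K, t ^ 2 + ‖x - t • k‖ ^ 2 / ρ ^ 2 < a := by
  by_contra hcon
  push Not at hcon
  exact absurd (le_Fk h0 hcon) (not_le.2 h)

lemma Fk_nonneg (h0 : (0 : E) ∈ K) (x : E) : 0 ≤ Fk K ρ x :=
  le_Fk h0 fun t _ k _ => by positivity

lemma Fk_le_normsq (h0 : (0 : E) ∈ K) (x : E) : Fk K ρ x ≤ ‖x‖ ^ 2 / ρ ^ 2 := by
  simpa using Fk_le (ρ := ρ) (x := x) le_rfl h0

lemma Fk_le_one {k : E} (hk : k ∈ K) : Fk K ρ k ≤ 1 := by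
  simpa using Fk_le (ρ := ρ) (x := k) zero_le_one hk

lemma normsq_convex (u v : E) {a b : ℝ} (ha : 0 ≤ a) (hb : 0 ≤ b) (hab : a + b = 1) :
    ‖a • u + b • v‖ ^ 2 ≤ a * ‖u‖ ^ 2 + b * ‖v‖ ^ 2 := by
  have h1 : ‖a • u + b • v‖ ≤ a * ‖u‖ + b * ‖v‖ := by
    refine le_trans (norm_add_le _ _) ?_
    rw [norm_smul, norm_smul, Real.norm_of_nonneg ha, Real.norm_of_nonneg hb]
  have h2 : ‖a • u + b • v‖ ^ 2 ≤ (a * ‖u‖ + b * ‖v‖) ^ 2 := by gcongr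
  have h3 : b = 1 - a := by linarith
  subst h3
  nlinarith [mul_nonneg (mul_nonneg ha hb) (sq_nonneg (‖u‖ - ‖v‖))]

lemma Fk_convex (h0 : (0 : E) ∈ K) (hK : Convex ℝ K) : ConvexOn ℝ univ (Fk K ρ) := by
  refine ⟨convex_univ, fun x _ y _ a b ha hb hab => ?_⟩
  simp only [smul_eq_mul]
  apply le_of_forall_pos_le_add
  intro ε hε
  obtain ⟨t₁, ht₁, k₁, hk₁, h₁⟩ := exists_lt_of_Fk_lt h0 (lt_add_of_pos_right (Fk K ρ x) hε)
  obtain ⟨t₂, ht₂, k₂, hk₂, h₂⟩ := exists_lt_of_Fk_lt h0 (lt_add_of_pos_right (Fk K ρ y) hε)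
  have ht : 0 ≤ a * t₁ + b * t₂ := by positivity
  obtain ⟨k, hk, hkk⟩ : ∃ k ∈ K, (a * t₁ + b * t₂) • k = (a * t₁) • k₁ + (b * t₂) • k₂ := by
    rcases ht.eq_or_lt with h | h
    · have e1 : a * t₁ = 0 := by nlinarith [mul_nonneg ha ht₁, mul_nonneg hb ht₂]
      have e2 : b * t₂ = 0 := by nlinarith [mul_nonneg ha ht₁, mul_nonneg hb ht₂]
      exact ⟨0, h0, by simp [e1, e2]⟩
    · refine ⟨(a * t₁ / (a * t₁ + b * t₂)) • k₁ + (b * t₂ / (a * t₁ + b * t₂)) • k₂,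
        hK hk₁ hk₂ (by positivity) (by positivity) (by field_simp), ?_⟩
      rw [smul_add, smul_smul, smul_smul]
      congr 2 <;> field_simp
  have h3 := Fk_le (ρ := ρ) (x := a • x + b • y) ht hk
  have e : a • x + b • y - (a * t₁ + b * t₂) • k = a • (x - t₁ • k₁) + b • (y - t₂ • k₂) := by
    rw [hkk]; module
  rw [e] at h3
  have h4 := normsq_convex (x - t₁ • k₁) (y - t₂ • k₂) ha hb hab
  have h5 : (a * t₁ + b * t₂) ^ 2 ≤ a * t₁ ^ 2 + b * t₂ ^ 2 := by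
    have h3 : b = 1 - a := by linarith
    subst h3
    nlinarith [mul_nonneg (mul_nonneg ha hb) (sq_nonneg (t₁ - t₂))]
  have h6 : ‖a • (x - t₁ • k₁) + b • (y - t₂ • k₂)‖ ^ 2 / ρ ^ 2
      ≤ a * (‖x - t₁ • k₁‖ ^ 2 / ρ ^ 2) + b * (‖y - t₂ • k₂‖ ^ 2 / ρ ^ 2) := by
    calc _ ≤ (a * ‖x - t₁ • k₁‖ ^ 2 + b * ‖y - t₂ • k₂‖ ^ 2) / ρ ^ 2 := by gcongr
      _ = _ := by ring
  have h7 := mul_le_mul_of_nonneg_left h₁.le ha
  have h8 := mul_le_mul_of_nonneg_left h₂.le hb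
  have h9 : a * ε + b * ε = ε := by rw [← add_mul, hab, one_mul]
  nlinarith

lemma Fk_concave (h0 : (0 : E) ∈ K) :
    ConvexOn ℝ univ (fun x => ‖x‖ ^ 2 / ρ ^ 2 - Fk K ρ x) := by
  refine ⟨convex_univ, fun x _ y _ a b ha hb hab => ?_⟩
  simp only [smul_eq_mul]
  have : ‖a • x + b • y‖ ^ 2 / ρ ^ 2 - (a * (‖x‖ ^ 2 / ρ ^ 2 - Fk K ρ x)
      + b * (‖y‖ ^ 2 / ρ ^ 2 - Fk K ρ y)) ≤ Fk K ρ (a • x + b • y) := by
    apply le_Fk h0
    intro t ht k hk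
    have h1 := mul_le_mul_of_nonneg_left (Fk_le (ρ := ρ) (x := x) ht hk) ha
    have h2 := mul_le_mul_of_nonneg_left (Fk_le (ρ := ρ) (x := y) ht hk) hb
    rw [norm_sub_sq_real] at h1 h2 ⊢
    rw [inner_add_left, real_inner_smul_left, real_inner_smul_left]
    have h3 : b = 1 - a := by linarith
    subst h3
    have e : ∀ A B C : ℝ, (A - 2 * B + C) / ρ ^ 2 = A / ρ ^ 2 - 2 * (B / ρ ^ 2) + C / ρ ^ 2 := by
      intro A B C; ring
    rw [e] at h1 h2 ⊢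
    have e2 : (a * inner ℝ x (t • k) + (1 - a) * inner ℝ y (t • k)) / ρ ^ 2
        = a * (inner ℝ x (t • k) / ρ ^ 2) + (1 - a) * (inner ℝ y (t • k) / ρ ^ 2) := by ring
    rw [e2]
    nlinarith
  linarith

lemma Fk_smul (h0 : (0 : E) ∈ K) (hs : ∀ x ∈ K, -x ∈ K) (r : ℝ) (x : E) :
    Fk K ρ (r • x) ≤ r ^ 2 * Fk K ρ x := by
  rcases eq_or_ne r 0 with rfl | hr
  · simpa using Fk_le_normsq (ρ := ρ) h0 (0 : E)
  have hr2 : 0 < r ^ 2 := by positivity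
  rw [mul_comm, ← div_le_iff₀ hr2]
  apply le_Fk h0
  intro t ht k hk
  rw [div_le_iff₀ hr2]
  rcases lt_or_gt_of_ne hr with h | h
  · have h1 := Fk_le (ρ := ρ) (x := r • x) (t := -r * t) (by nlinarith) (hs k hk)
    have e : r • x - (-r * t) • (-k) = r • (x - t • k) := by module
    rw [e, norm_smul, mul_pow ‖r‖, Real.norm_eq_abs, sq_abs] at h1
    calc _ ≤ _ := h1
      _ = _ := by ring
  · have h1 := Fk_le (ρ := ρ) (x := r • x) (t := r * t) (by positivity) hk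
    have e : r • x - (r * t) • k = r • (x - t • k) := by module
    rw [e, norm_smul, mul_pow ‖r‖, Real.norm_eq_abs, sq_abs] at h1
    calc _ ≤ _ := h1
      _ = _ := by ring

lemma near_of_Fk_le_one (h0 : (0 : E) ∈ K) (hK : Convex ℝ K) (hρ : 0 < ρ) {R : ℝ}
    (hR : ∀ k ∈ K, ‖k‖ ≤ R) {x : E} (hx : Fk K ρ x ≤ 1) :
    ∃ k ∈ K, ‖x - k‖ ≤ ρ * (1 + ρ + R) := by
  have h1 : Fk K ρ x < (1 + ρ) ^ 2 := by nlinarith
  obtain ⟨t, ht, k, hk, h⟩ := exists_lt_of_Fk_lt h0 h1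
  have hρ1 : 0 < 1 + ρ := by linarith
  have a1 : t ≤ 1 + ρ := by
    have : 0 ≤ ‖x - t • k‖ ^ 2 / ρ ^ 2 := by positivity
    exact le_of_sq_le_sq (by linarith) hρ1.le
  have a2 : ‖x - t • k‖ ≤ ρ * (1 + ρ) := by
    have h2 : ‖x - t • k‖ ^ 2 / ρ ^ 2 ≤ (1 + ρ) ^ 2 := by nlinarith
    rw [div_le_iff₀ (by positivity)] at h2
    exact le_of_sq_le_sq (by nlinarith) (by positivity)
  have hs : 0 ≤ t / (1 + ρ) := by positivity
  have hs1 : t / (1 + ρ) ≤ 1 := by rw [div_le_one hρ1]; exact a1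
  refine ⟨(t / (1 + ρ)) • k, hK.smul_mem_of_zero_mem h0 hk ⟨hs, hs1⟩, ?_⟩
  have e : x - (t / (1 + ρ)) • k = (x - t • k) + (ρ * (t / (1 + ρ))) • k := by
    have h3 : ρ * (t / (1 + ρ)) = t - t / (1 + ρ) := by field_simp; ring
    rw [h3, sub_smul]
    abel
  rw [e]
  have hR0 : 0 ≤ R := le_trans (norm_nonneg _) (hR k hk)
  have a3 : ‖(ρ * (t / (1 + ρ))) • k‖ ≤ ρ * R := by
    rw [norm_smul, Real.norm_of_nonneg (by positivity)]
    calc ρ * (t / (1 + ρ)) * ‖k‖ ≤ ρ * 1 * R := by gcongr; exact hR k hk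
      _ = ρ * R := by ring
  calc _ ≤ _ := norm_add_le _ _
    _ ≤ ρ * (1 + ρ) + ρ * R := add_le_add a2 a3
    _ = _ := by ring

end F

lemma convex_quad (f g : E →ₗ[ℝ] ℝ) (h : ∀ z, |f z * g z| ≤ 2 * ‖z‖ ^ 2) :
    ConvexOn ℝ univ (fun x => 2 * ‖x‖ ^ 2 + f x * g x) := by
  refine ⟨convex_univ, fun x _ y _ a b ha hb hab => ?_⟩
  simp only [smul_eq_mul, map_add, map_smul]
  have h1 := (abs_le.1 (h (x - y))).1
  rw [norm_sub_sq_real, map_sub, map_sub] at h1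
  rw [norm_add_sq_real, norm_smul, norm_smul, real_inner_smul_left, real_inner_smul_right,
    Real.norm_of_nonneg ha, Real.norm_of_nonneg hb]
  have h3 : b = 1 - a := by linarith
  subst h3
  have h2 := mul_nonneg (mul_nonneg ha hb) (sub_nonneg.2 h1)
  nlinarith

lemma convex_quad_abs (f g : E →ₗ[ℝ] ℝ) (h : ∀ z, |f z * g z| ≤ 2 * ‖z‖ ^ 2) :
    ConvexOn ℝ univ (fun x => 2 * ‖x‖ ^ 2 + |f x * g x|) := by
  have h1 := convex_quad f g h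
  have h2 := convex_quad f (-g) (fun z => by simpa using h z)
  have h3 := h1.sup h2
  refine h3.congr fun x _ => Eq.symm ?_
  simp only [Pi.sup_apply, LinearMap.neg_apply, mul_neg]
  rcases abs_cases (f x * g x) with h | h
  · rw [sup_eq_left.2 (by linarith [h.2]), h.1]
  · rw [sup_eq_right.2 (by linarith [h.2]), h.1]

lemma sqrt_subadd {G : E → ℝ} (hc : ConvexOn ℝ univ G) (hs : ∀ (r : ℝ) x, G (r • x) ≤ r ^ 2 * G x)
    (hpos : ∀ x, x ≠ 0 → 0 < G x) (x y : E) : √(G (x + y)) ≤ √(G x) + √(G y) := by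
  rcases eq_or_ne x 0 with rfl | hx
  · simp
  rcases eq_or_ne y 0 with rfl | hy
  · simp
  have ha : 0 < √(G x) := Real.sqrt_pos.2 (hpos x hx)
  have hb : 0 < √(G y) := Real.sqrt_pos.2 (hpos y hy)
  have ha2 : √(G x) ^ 2 = G x := Real.sq_sqrt (hpos x hx).le
  have hb2 : √(G y) ^ 2 = G y := Real.sq_sqrt (hpos y hy).le
  set a := √(G x)
  set b := √(G y)
  have hab : 0 < a + b := by linarith
  have h1 : G (a⁻¹ • x) ≤ 1 := by
    refine le_trans (hs _ _) ?_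
    rw [← ha2]; field_simp; rfl
  have h2 : G (b⁻¹ • y) ≤ 1 := by
    refine le_trans (hs _ _) ?_
    rw [← hb2]; field_simp; rfl
  have h3 := hc.2 (mem_univ (a⁻¹ • x)) (mem_univ (b⁻¹ • y))
    (by positivity : 0 ≤ a / (a + b)) (by positivity : 0 ≤ b / (a + b)) (by field_simp)
  have e : x + y = (a + b) • ((a / (a + b)) • (a⁻¹ • x) + (b / (a + b)) • (b⁻¹ • y)) := by
    rw [smul_add, smul_smul, smul_smul, smul_smul, smul_smul]
    rw [show (a + b) * (a / (a + b)) * a⁻¹ = 1 by field_simp,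
      show (a + b) * (b / (a + b)) * b⁻¹ = 1 by field_simp, one_smul, one_smul]
  have h4 : G ((a / (a + b)) • (a⁻¹ • x) + (b / (a + b)) • (b⁻¹ • y)) ≤ 1 := by
    refine le_trans h3 ?_
    simp only [smul_eq_mul]
    calc a / (a + b) * G (a⁻¹ • x) + b / (a + b) * G (b⁻¹ • y)
        ≤ a / (a + b) * 1 + b / (a + b) * 1 := by gcongr
      _ = 1 := by field_simp
  rw [Real.sqrt_le_left hab.le, e]
  refine le_trans (hs _ _) ?_
  nlinarith [sq_nonneg (a + b)]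

/-- a norm with two-sided bounds -/
structure IsNrm (N : E → ℝ) (c C : ℝ) : Prop where
  cpos : 0 < c
  add : ∀ x y, N (x + y) ≤ N x + N y
  smul : ∀ (r : ℝ) x, N (r • x) ≤ |r| * N x
  low : ∀ x, c * ‖x‖ ≤ N x
  up : ∀ x, N x ≤ C * ‖x‖

namespace IsNrm

variable {N : E → ℝ} {c C : ℝ}

lemma nonneg (h : IsNrm N c C) (x : E) : 0 ≤ N x :=
  le_trans (mul_nonneg h.cpos.le (norm_nonneg x)) (h.low x)

lemma zero (h : IsNrm N c C) : N 0 = 0 :=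
  le_antisymm (by simpa using h.up 0) (h.nonneg 0)

lemma neg (h : IsNrm N c C) (x : E) : N (-x) = N x := by
  apply le_antisymm
  · simpa using h.smul (-1) x
  · simpa using h.smul (-1) (-x)

lemma eq_zero (h : IsNrm N c C) {x : E} (hx : N x = 0) : x = 0 := by
  have h1 := h.low x
  have h2 := h.cpos
  rw [hx] at h1
  have : ‖x‖ ≤ 0 := by
    by_contra hcon
    push Not at hcon
    nlinarith
  exact norm_le_zero_iff.1 this

lemma smul_eq (h : IsNrm N c C) {r : ℝ} (hr : 0 < r) (x : E) : N (r • x) = r * N x := by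
  apply le_antisymm
  · simpa [abs_of_pos hr] using h.smul r x
  · have := h.smul r⁻¹ (r • x)
    rw [smul_smul, inv_mul_cancel₀ hr.ne', one_smul, abs_of_pos (inv_pos.2 hr)] at this
    calc r * N x ≤ r * (r⁻¹ * N (r • x)) := by gcongr
      _ = _ := by field_simp

lemma continuous (h : IsNrm N c C) : Continuous N := by
  have : LipschitzWith (Real.toNNReal C) N := by
    apply LipschitzWith.of_le_add_mul'
    intro x y
    have h1 := h.add y (x - y)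
    have h2 := h.up (x - y)
    rw [add_sub_cancel] at h1
    rw [dist_eq_norm]
    linarith
  exact this.continuous

lemma convex_le (h : IsNrm N c C) : Convex ℝ {x | N x ≤ 1} := by
  intro x hx y hy a b ha hb hab
  simp only [mem_ofPred_eq] at hx hy ⊢
  have h1 := h.add (a • x) (b • y)
  have h2 := h.smul a x
  have h3 := h.smul b y
  rw [abs_of_nonneg ha] at h2
  rw [abs_of_nonneg hb] at h3
  nlinarith [mul_le_mul_of_nonneg_left hx ha, mul_le_mul_of_nonneg_left hy hb]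

lemma isCompact_le [FiniteDimensional ℝ E] (h : IsNrm N c C) : IsCompact {x | N x ≤ 1} := by
  apply Metric.isCompact_of_isClosed_isBounded (isClosed_le h.continuous continuous_const)
  rw [isBounded_iff_forall_norm_le]
  refine ⟨1 / c, fun x hx => ?_⟩
  rw [le_div_iff₀ h.cpos]
  have := h.low x
  simp only [mem_ofPred_eq] at hx
  linarith

end IsNrm

/-- the perturbed squared norm -/
noncomputable def Gk (K : Set E) (ρ τ : ℝ) (f g₁ g₂ g₃ : E →ₗ[ℝ] ℝ) (x : E) : ℝ :=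
  Fk K ρ x + τ * (6 * ‖x‖ ^ 2 + |f x * g₁ x| + |f x * g₂ x| + |f x * g₃ x|)

lemma Gk_isNrm {K : Set E} (h0 : (0 : E) ∈ K) (hK : Convex ℝ K) (hs : ∀ x ∈ K, -x ∈ K)
    (ρ : ℝ) {τ : ℝ} (hτ : 0 < τ) {f g₁ g₂ g₃ : E →ₗ[ℝ] ℝ}
    (h₁ : ∀ z, |f z * g₁ z| ≤ 2 * ‖z‖ ^ 2) (h₂ : ∀ z, |f z * g₂ z| ≤ 2 * ‖z‖ ^ 2)
    (h₃ : ∀ z, |f z * g₃ z| ≤ 2 * ‖z‖ ^ 2) :
    IsNrm (fun x => √(Gk K ρ τ f g₁ g₂ g₃ x)) (√(6 * τ)) (√(1 / ρ ^ 2 + 12 * τ)) := by
  have hlow : ∀ x, 6 * τ * ‖x‖ ^ 2 ≤ Gk K ρ τ f g₁ g₂ g₃ x := by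
    intro x
    unfold Gk
    have := Fk_nonneg (ρ := ρ) h0 x
    have a1 := abs_nonneg (f x * g₁ x)
    have a2 := abs_nonneg (f x * g₂ x)
    have a3 := abs_nonneg (f x * g₃ x)
    nlinarith
  have hsm : ∀ (r : ℝ) x, Gk K ρ τ f g₁ g₂ g₃ (r • x) ≤ r ^ 2 * Gk K ρ τ f g₁ g₂ g₃ x := by
    intro r x
    unfold Gk
    have := Fk_smul (ρ := ρ) h0 hs r x
    have e : ∀ g : E →ₗ[ℝ] ℝ, |f (r • x) * g (r • x)| = r ^ 2 * |f x * g x| := by
      intro g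
      rw [map_smul, map_smul, smul_eq_mul, smul_eq_mul,
        show r * f x * (r * g x) = r ^ 2 * (f x * g x) by ring, abs_mul,
        abs_of_nonneg (sq_nonneg r)]
    rw [e, e, e, norm_smul, mul_pow ‖r‖, Real.norm_eq_abs, sq_abs]
    nlinarith
  have hconv : ConvexOn ℝ univ (Gk K ρ τ f g₁ g₂ g₃) := by
    have := (Fk_convex (ρ := ρ) h0 hK).add ((((convex_quad_abs f g₁ h₁).add
      (convex_quad_abs f g₂ h₂)).add (convex_quad_abs f g₃ h₃)).smul hτ.le)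
    refine this.congr fun x _ => Eq.symm ?_
    simp only [Gk, Pi.add_apply, smul_eq_mul]
    ring
  refine ⟨Real.sqrt_pos.2 (by positivity), sqrt_subadd hconv hsm (fun x hx => ?_), ?_, ?_, ?_⟩
  · refine lt_of_lt_of_le ?_ (hlow x)
    have := norm_pos_iff.2 hx
    positivity
  · intro r x
    rw [← Real.sqrt_sq_eq_abs, ← Real.sqrt_mul (sq_nonneg r)]
    exact Real.sqrt_le_sqrt (hsm r x)
  · intro x
    rw [← Real.sqrt_sq (norm_nonneg x), ← Real.sqrt_mul (by positivity)]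
    exact Real.sqrt_le_sqrt (hlow x)
  · intro x
    rw [← Real.sqrt_sq (norm_nonneg x), ← Real.sqrt_mul (by positivity)]
    apply Real.sqrt_le_sqrt
    unfold Gk
    have := Fk_le_normsq (ρ := ρ) h0 x
    have a1 := h₁ x
    have a2 := h₂ x
    have a3 := h₃ x
    have e : (1 / ρ ^ 2 + 12 * τ) * ‖x‖ ^ 2 = ‖x‖ ^ 2 / ρ ^ 2 + τ * (12 * ‖x‖ ^ 2) := by ring
    rw [e]
    have : 6 * ‖x‖ ^ 2 + |f x * g₁ x| + |f x * g₂ x| + |f x * g₃ x| ≤ 12 * ‖x‖ ^ 2 := by linarith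
    gcongr

end Pool.Agent.MP_2c685a_gt
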