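import Mathlib
import Pool.Agent.MP_2c685a_gt.Norm

set_option autoImplicit false

open Set MeasureTheory Module
open scoped Pointwise

namespace Pool.Agent.MP_2c685a_gt

variable {E : Type*} [NormedAddCommGroup E] [InnerProductSpace ℝ E]
variable {U : Type*} [NormedAddCommGroup U] [InnerProductSpace ℝ U]

/-- graph parametrisation of a hyperplane -/
noncomputable def Tm (j : U →ₗᵢ[ℝ] E) (e : E) (w : U) : U →ₗ[ℝ] E :=
  j.toLinearMap + LinearMap.smulRight (innerₗ U w) e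

lemma Tm_apply (j : U →ₗᵢ[ℝ] E) (e : E) (w y : U) : Tm j e w y = j y + (inner ℝ w y) • e := by
  simp [Tm]

lemma norm_sq_add (j : U →ₗᵢ[ℝ] E) {e : E} (he : ‖e‖ = 1) (hj : ∀ y, inner ℝ e (j y) = 0)
    (y : U) (η : ℝ) : ‖j y + η • e‖ ^ 2 = ‖y‖ ^ 2 + η ^ 2 := by
  rw [norm_add_sq_real, real_inner_smul_right, real_inner_comm, hj, norm_smul, he, j.norm_map,
    Real.norm_eq_abs, mul_one, sq_abs]
  ring

lemma normDet_Tm [FiniteDimensional ℝ U] (j : U →ₗᵢ[ℝ] E) {e : E} (he : ‖e‖ = 1)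
    (hj : ∀ y, inner ℝ e (j y) = 0) (w : U) : (Tm j e w).normDet = ‖e - j w‖ := by
  set b := stdOrthonormalBasis ℝ U
  have h1 := (Tm j e w).normDet_sq_eq_det_gram b
  have h2 : Matrix.gram ℝ (fun i => Tm j e w (b i)) = 1 +
      Matrix.replicateCol Unit (fun i => inner ℝ w (b i)) *
        Matrix.replicateRow Unit (fun i => inner ℝ w (b i)) := by
    ext i k
    have hee : inner ℝ e e = (1 : ℝ) := by rw [real_inner_self_eq_norm_sq, he]; norm_num
    have hj' : ∀ y, inner ℝ (j y) e = 0 := fun y => by rw [real_inner_comm, hj]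
    simp only [Matrix.gram_apply, Tm_apply, inner_add_left, inner_add_right, real_inner_smul_left,
      real_inner_smul_right, hj, hj', hee, LinearIsometry.inner_map_map, Matrix.add_apply,
      Matrix.mul_apply, Matrix.replicateCol_apply, Matrix.replicateRow_apply, Finset.univ_unique,
      Finset.sum_singleton, Matrix.one_apply, b.inner_eq_ite]
    ring
  rw [h2, Matrix.det_one_add_replicateCol_mul_replicateRow] at h1
  have h3 : (fun i => inner ℝ w (b i)) ⬝ᵥ (fun i => inner ℝ w (b i)) = ‖w‖ ^ 2 := by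
    rw [← b.sum_sq_inner_left w]
    simp only [dotProduct, sq]
  have h4 : ‖e - j w‖ ^ 2 = 1 + ‖w‖ ^ 2 := by
    rw [norm_sub_sq_real, hj, he, j.norm_map]; ring
  rw [h3, ← h4] at h1
  exact (pow_left_inj₀ (LinearMap.normDet_nonneg _) (norm_nonneg _) two_ne_zero).1
    (by exact_mod_cast h1)

lemma section_eq (j : U →ₗᵢ[ℝ] E) {e : E} (he : ‖e‖ = 1) (hj : ∀ y, inner ℝ e (j y) = 0)
    (hs : ∀ x, inner ℝ e x = 0 → ∃ y, j y = x) (w : U) (S : Set E) :
    S ∩ {x | inner ℝ (e - j w) x = 0} = Tm j e w '' (Tm j e w ⁻¹' S) := by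
  have hee : inner ℝ e e = (1 : ℝ) := by rw [real_inner_self_eq_norm_sq, he]; norm_num
  have hj' : ∀ y, inner ℝ (j y) e = 0 := fun y => by rw [real_inner_comm, hj]
  rw [image_preimage_eq_inter_range]
  congr 1
  ext x
  simp only [mem_ofPred_eq, mem_range]
  constructor
  · intro hx
    obtain ⟨y, hy⟩ := hs (x - (inner ℝ e x) • e) (by
      rw [inner_sub_right, real_inner_smul_right, hee]; ring)
    refine ⟨y, ?_⟩
    have h1 : inner ℝ w y = inner ℝ e x := by
      rw [← j.inner_map_map, hy, inner_sub_right, real_inner_smul_right, hj']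
      rw [inner_sub_left] at hx
      linarith
    rw [Tm_apply, h1, hy]
    abel
  · rintro ⟨y, rfl⟩
    rw [Tm_apply, inner_sub_left, inner_add_right, inner_add_right, real_inner_smul_right,
      real_inner_smul_right, hj, hj', hee, j.inner_map_map]
    ring

lemma Tm_low (j : U →ₗᵢ[ℝ] E) {e : E} (he : ‖e‖ = 1) (hj : ∀ y, inner ℝ e (j y) = 0)
    (w y : U) : ‖y‖ ≤ ‖Tm j e w y‖ := by
  apply le_of_sq_le_sq _ (norm_nonneg _)
  rw [Tm_apply, norm_sq_add j he hj]
  nlinarith [sq_nonneg (inner ℝ w y)]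

lemma subset_of_hausdorff [CompleteSpace E] {N : E → ℝ} {c C r : ℝ} (h : IsNrm N c C)
    {S : Set E} (hS : Convex ℝ S) (hSc : IsClosed S) (hne : S.Nonempty) (hr : 0 ≤ r)
    (hnear : ∀ x, N x ≤ 1 → ∃ k ∈ S, dist x k < r) {x : E} (hx : N x < 1 - C * r) : x ∈ S := by
  by_contra hcon
  obtain ⟨p, hp, hpe⟩ := exists_norm_eq_iInf_of_complete_convex hne hSc.isComplete hS x
  have hproj := (norm_eq_iInf_iff_real_inner_le_zero hS hp).1 hpe
  have hxp : x - p ≠ 0 := by
    intro h0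
    rw [sub_eq_zero] at h0
    exact hcon (h0 ▸ hp)
  have hn : 0 < ‖x - p‖ := norm_pos_iff.2 hxp
  set v := ‖x - p‖⁻¹ • (x - p) with hv
  have hv1 : ‖v‖ = 1 := by
    rw [hv, norm_smul, norm_inv, norm_norm, inv_mul_cancel₀ hn.ne']
  have hz : N (x + r • v) ≤ 1 := by
    have h1 := h.add x (r • v)
    have h2 := h.up (r • v)
    rw [norm_smul, hv1, Real.norm_of_nonneg hr, mul_one] at h2
    linarith
  obtain ⟨k, hk, hd⟩ := hnear _ hz
  have h1 : inner ℝ v (k - p) ≤ 0 := by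
    rw [hv, real_inner_smul_left]
    exact mul_nonpos_of_nonneg_of_nonpos (inv_nonneg.2 hn.le) (hproj k hk)
  have h2 : inner ℝ v (x - p) = ‖x - p‖ := by
    rw [hv, real_inner_smul_left, real_inner_self_eq_norm_sq]
    field_simp
  have h3 : inner ℝ v v = (1 : ℝ) := by rw [real_inner_self_eq_norm_sq, hv1]; norm_num
  have h4 : inner ℝ v (x + r • v - k) ≤ ‖x + r • v - k‖ := by
    have := real_inner_le_norm v (x + r • v - k)
    rwa [hv1, one_mul] at this
  have h5 : x + r • v - k = (x - p) + r • v - (k - p) := by abel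
  rw [dist_eq_norm] at hd
  have h6 : inner ℝ v (x + r • v - k) = ‖x - p‖ + r - inner ℝ v (k - p) := by
    rw [h5, inner_sub_right, inner_add_right, real_inner_smul_right, h2, h3, mul_one]
  linarith

variable [FiniteDimensional ℝ U] [MeasurableSpace U] [BorelSpace U]

lemma measure_sublevel (ν : Measure U) [ν.IsAddHaarMeasure] {N : E → ℝ} {c C : ℝ}
    (h : IsNrm N c C) (T : U →ₗ[ℝ] E) (hT : ∀ y, ‖y‖ ≤ ‖T y‖) {l : ℝ} (hl : 0 < l) :
    ν {y | N (T y) < l} = ENNReal.ofReal (l ^ finrank ℝ U *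
      ((∫ y, Real.exp (-(N (T y)) ^ 2) ∂ν) / Real.Gamma (finrank ℝ U / 2 + 1))) := by
  have h1 := measure_lt_one_eq_integral_div_gamma ν (g := fun y => N (T y))
    (by simp [h.zero]) (fun x => by simp [h.neg]) (fun x y => by simpa using h.add _ _)
    (fun {x} hx => by
      have := hT x
      rw [h.eq_zero hx, norm_zero] at this
      exact norm_le_zero_iff.1 this)
    (fun r x => by simpa using h.smul r _) (p := 2) two_pos
  have h2 : {y | N (T y) < l} = l • {y | N (T y) < 1} := by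
    ext y
    rw [mem_smul_set_iff_inv_smul_mem₀ hl.ne']
    simp only [mem_ofPred_eq, map_smul]
    rw [h.smul_eq (inv_pos.2 hl), inv_mul_lt_iff₀ hl, mul_one]
  rw [h2, Measure.addHaar_smul_of_nonneg ν hl.le, h1, ENNReal.ofReal_mul (by positivity)]
  simp only [Real.rpow_ofNat]

/-- two-sided bound for the section of a body sandwiched between sublevel sets -/
lemma section_bounds (ν : Measure U) [ν.IsAddHaarMeasure] {N : E → ℝ} {c C : ℝ}
    (h : IsNrm N c C) (T : U →ₗ[ℝ] E) (hT : ∀ y, ‖y‖ ≤ ‖T y‖) {s : ℝ} (hs0 : 0 ≤ s) (hs : s < 1)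
    {S : Set E} (h1 : ∀ x, N x < 1 - s → x ∈ S) (h2 : ∀ x ∈ S, N x < 1 + s) :
    (1 - s) ^ finrank ℝ U *
      ((∫ y, Real.exp (-(N (T y)) ^ 2) ∂ν) / Real.Gamma (finrank ℝ U / 2 + 1))
      ≤ (ν (T ⁻¹' S)).toReal ∧ (ν (T ⁻¹' S)).toReal ≤ (1 + s) ^ finrank ℝ U *
      ((∫ y, Real.exp (-(N (T y)) ^ 2) ∂ν) / Real.Gamma (finrank ℝ U / 2 + 1)) := by
  have a1 := measure_sublevel ν h T hT (l := 1 - s) (by linarith)
  have a2 := measure_sublevel ν h T hT (l := 1 + s) (by linarith)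
  have hG : 0 < Real.Gamma (finrank ℝ U / 2 + 1) := Real.Gamma_pos_of_pos (by positivity)
  have hI : 0 ≤ ∫ y, Real.exp (-(N (T y)) ^ 2) ∂ν := integral_nonneg fun y => (Real.exp_pos _).le
  have b1 : ν {y | N (T y) < 1 - s} ≤ ν (T ⁻¹' S) := measure_mono fun y hy => h1 _ hy
  have b2 : ν (T ⁻¹' S) ≤ ν {y | N (T y) < 1 + s} := measure_mono fun y hy => h2 _ hy
  rw [a1] at b1
  rw [a2] at b2
  have hfin : ν (T ⁻¹' S) ≠ ⊤ := ne_top_of_le_ne_top ENNReal.ofReal_ne_top b2
  constructor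
  · exact (ENNReal.ofReal_le_iff_le_toReal hfin).1 b1
  · exact ENNReal.toReal_le_of_le_ofReal (by positivity) b2

end Pool.Agent.MP_2c685a_gt
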