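import Mathlib
import Pool.Agent.MP_2c685a_gt.CoreThm
import Pool.Agent.MP_2c685a_gt.Nondeg
import Pool.Agent.MP_2c685a_gt.Section

set_option autoImplicit false

open Set MeasureTheory Module Filter Topology

namespace Pool.Agent.MP_2c685a_gt

variable {E : Type*} [NormedAddCommGroup E] [InnerProductSpace ℝ E] [FiniteDimensional ℝ E]
variable {U : Type*} [NormedAddCommGroup U] [InnerProductSpace ℝ U]

/-- the smooth part of the exponent -/
noncomputable def Hk (K : Set E) (ρ τ : ℝ) (j : U →ₗᵢ[ℝ] E) (e : E) (η : ℝ) (y : U) : ℝ :=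
  Fk K ρ (j y + η • e) + 6 * τ * (‖y‖ ^ 2 + η ^ 2)

lemma convexOn_line {f : E → ℝ} (hf : ConvexOn ℝ univ f) (x e : E) :
    ConvexOn ℝ univ (fun η : ℝ => f (x + η • e)) := by
  refine ⟨convex_univ, fun s _ t _ a b ha hb hab => ?_⟩
  have := hf.2 (mem_univ (x + s • e)) (mem_univ (x + t • e)) ha hb hab
  have e1 : a • (x + s • e) + b • (x + t • e) = x + (a • s + b • t) • e := by
    have : x = (a + b) • x := by rw [hab, one_smul]
    conv_rhs => rw [this]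
    simp only [smul_eq_mul]
    module
  rwa [e1] at this

lemma good_Hk {K : Set E} (h0 : (0 : E) ∈ K) (hK : Convex ℝ K) (ρ : ℝ) {τ : ℝ} (hτ : 0 < τ)
    (j : U →ₗᵢ[ℝ] E) {e : E} (he : ‖e‖ = 1) (hj : ∀ y, inner ℝ e (j y) = 0) {κ : U → ℝ}
    (hκ : Continuous κ) (h1 : ∀ y, 0 ≤ κ y) (h2 : ∀ y, κ y ≤ 6 * τ * ‖y‖) :
    Good (Hk K ρ τ j e) κ (6 * τ) (1 / ρ ^ 2 + 6 * τ) := by
  have hFc : Continuous (Fk K ρ) := by
    rw [← continuousOn_univ]
    exact (Fk_convex h0 hK).continuousOn isOpen_univ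
  have hsq : ConvexOn ℝ univ (fun η : ℝ => η ^ 2) := Even.convexOn_pow (by norm_num)
  refine ⟨by positivity, by positivity, ?_, hκ, fun y => ?_, fun y => ?_, fun η y => ?_,
    fun η y => ?_, h1, fun y => ?_⟩
  · have hjc := j.continuous
    have : Function.uncurry (Hk K ρ τ j e) = fun z : ℝ × U =>
        Fk K ρ (j z.2 + z.1 • e) + 6 * τ * (‖z.2‖ ^ 2 + z.1 ^ 2) := by
      funext z; rfl
    rw [this]
    fun_prop
  · have := ((convexOn_line (Fk_convex (ρ := ρ) h0 hK) (j y) e).add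
      (hsq.smul (by positivity : 0 ≤ 6 * τ))).add_const (6 * τ * ‖y‖ ^ 2)
    refine this.congr fun η _ => ?_
    simp only [Hk, Pi.add_apply, smul_eq_mul]
    ring
  · have := (convexOn_line (Fk_concave (ρ := ρ) h0) (j y) e).add_const
      (-((1 / ρ ^ 2 + 6 * τ) * ‖y‖ ^ 2))
    refine this.congr fun η _ => ?_
    simp only [Hk, Pi.add_apply]
    rw [norm_sq_add j he hj]
    ring
  · unfold Hk
    have := Fk_nonneg (ρ := ρ) h0 (j y + η • e)
    nlinarith [sq_nonneg η]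
  · unfold Hk
    have := Fk_le_normsq (ρ := ρ) h0 (j y + η • e)
    rw [norm_sq_add j he hj] at this
    have e1 : (1 / ρ ^ 2 + 6 * τ) * (η ^ 2 + ‖y‖ ^ 2)
        = (‖y‖ ^ 2 + η ^ 2) / ρ ^ 2 + 6 * τ * (‖y‖ ^ 2 + η ^ 2) := by ring
    linarith
  · have := h2 y
    have : 0 ≤ 1 / ρ ^ 2 * ‖y‖ := by positivity
    nlinarith

variable [FiniteDimensional ℝ U] [MeasurableSpace U] [BorelSpace U]
  [MeasurableSpace E] [BorelSpace E]

/-- the reciprocal section function is a cosine transform -/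
def Bad (d : ℝ) (S : Set E) : Prop :=
  ∃ μ : Measure E, IsFiniteMeasure μ ∧ μ (Metric.sphere (0 : E) 1)ᶜ = 0 ∧
    ∀ u : E, ‖u‖ = 1 → (Measure.hausdorffMeasure d (S ∩ {x | inner ℝ u x = 0})).toReal *
      (∫ v, |inner ℝ u v| ∂μ) = 1

omit [FiniteDimensional ℝ E] in
lemma int_inner {μ : Measure E} [IsFiniteMeasure μ] (h : μ (Metric.sphere (0 : E) 1)ᶜ = 0)
    (a : E) : Integrable (fun v => inner ℝ a v) μ := by
  have hc : Continuous (fun v : E => inner ℝ a v) := by fun_prop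
  refine (integrable_const ‖a‖).mono' hc.measurable.aestronglyMeasurable ?_
  have : ∀ᵐ v ∂μ, v ∈ Metric.sphere (0 : E) 1 := h
  filter_upwards [this] with v hv
  have h1 := norm_inner_le_norm (𝕜 := ℝ) a v
  rw [mem_sphere_zero_iff_norm.1 hv, mul_one] at h1
  exact h1

lemma exists_small {γ θ : ℝ} (hγ : 0 < γ) (hθ : 0 < θ) (d : ℕ) :
    ∃ s : ℝ, 0 < s ∧ s < 1 ∧ γ < (γ + θ) * (1 - s) ^ d ∧ (γ - θ) * (1 + s) ^ d < γ := by
  have h1 : ∀ᶠ s : ℝ in 𝓝 0, γ < (γ + θ) * (1 - s) ^ d :=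
    ContinuousAt.eventually_lt continuousAt_const (by fun_prop) (by simpa using hθ)
  have h2 : ∀ᶠ s : ℝ in 𝓝 0, (γ - θ) * (1 + s) ^ d < γ :=
    ContinuousAt.eventually_lt (by fun_prop) continuousAt_const (by simpa using hθ)
  have h3 : ∀ᶠ s : ℝ in 𝓝 0, s < 1 := eventually_lt_nhds (by norm_num)
  have h4 : ∀ᶠ s : ℝ in 𝓝[>] 0, 0 < s := self_mem_nhdsWithin
  obtain ⟨s, a, b, c, d⟩ := (h4.and ((h3.and (h1.and h2)).filter_mono nhdsWithin_le_nhds)).exists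
  exact ⟨s, a, b, c, d⟩

lemma case_fail {K : Set E} (h0 : (0 : E) ∈ K) (hK : Convex ℝ K) (hs : ∀ x ∈ K, -x ∈ K)
    (ρ : ℝ) {τ : ℝ} (hτ : 0 < τ)
    (j : U →ₗᵢ[ℝ] E) {e : E} (he : ‖e‖ = 1) (hj : ∀ y, inner ℝ e (j y) = 0)
    (hsurj : ∀ x, inner ℝ e x = 0 → ∃ y, j y = x) {e₁ e₂ : U} (he₁ : ‖e₁‖ = 1) (he₂ : ‖e₂‖ = 1)
    {g₁ g₂ g₃ : E →ₗ[ℝ] ℝ} (z₁ : g₁ e = 0) (z₂ : g₂ e = 0) (z₃ : g₃ e = 0)
    {C : ℝ} (hN : IsNrm (fun x => √(Gk K ρ τ (innerₗ E e) g₁ g₂ g₃ x)) (√(6 * τ)) C)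
    {κ : U → ℝ} (hκ : ∀ y, κ y = τ * (|g₁ (j y)| + |g₂ (j y)| + |g₃ (j y)|))
    (g : Good (Hk K ρ τ j e) κ (6 * τ) (1 / ρ ^ 2 + 6 * τ))
    (hP : Pdef (Measure.hausdorffMeasure (finrank ℝ U)) (Hk K ρ τ j e) κ
      (fun y => inner ℝ e₁ y) (fun y => inner ℝ e₂ y) ≠ 0) :
    ∃ s : ℝ, 0 < s ∧ ∀ S : Set E, (∀ x, √(Gk K ρ τ (innerₗ E e) g₁ g₂ g₃ x) < 1 - s → x ∈ S) →
      (∀ x ∈ S, √(Gk K ρ τ (innerₗ E e) g₁ g₂ g₃ x) < 1 + s) → ¬ Bad (finrank ℝ U) S := by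
  set ν : Measure U := Measure.hausdorffMeasure (finrank ℝ U) with hν
  set γ := Real.Gamma (finrank ℝ U / 2 + 1) with hγdef
  have hγ : 0 < γ := Real.Gamma_pos_of_pos (by positivity)
  have hb : ∀ a : U, ‖a‖ = 1 → ∀ y, |inner ℝ a y| ≤ ‖y‖ := by
    intro a ha y
    have := abs_real_inner_le_norm a y
    rwa [ha, one_mul] at this
  obtain ⟨θ, hθ, hcore⟩ := core ν (Ω := E) g (p := fun y => inner ℝ e₁ y)
    (q := fun y => inner ℝ e₂ y) (by fun_prop) (by fun_prop) (hb e₁ he₁) (hb e₂ he₂) hγ hP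
  obtain ⟨s, hs0, hs1, hsa, hsb⟩ := exists_small hγ hθ (finrank ℝ U)
  refine ⟨s, hs0, fun S hS1 hS2 ⟨μ, hμ, hμs, hμe⟩ => ?_⟩
  refine hcore μ (fun v => inner ℝ e v) (fun v => inner ℝ (j e₁) v) (fun v => inner ℝ (j e₂) v)
    (by fun_prop) (by fun_prop) (by fun_prop) (int_inner hμs _) (int_inner hμs _)
    (int_inner hμs _) fun α β _ _ => ?_
  set w : U := α • e₁ + β • e₂ with hw
  have hee : inner ℝ e e = (1 : ℝ) := by rw [real_inner_self_eq_norm_sq, he]; norm_num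
  have hJ : 0 < ‖e - j w‖ := by
    rw [norm_pos_iff]
    intro h
    have : inner ℝ e (e - j w) = (1 : ℝ) := by rw [inner_sub_right, hj, hee, sub_zero]
    rw [h, inner_zero_right] at this
    exact zero_ne_one this
  have hu := hμe (‖e - j w‖⁻¹ • (e - j w)) (by
    rw [norm_smul, norm_inv, norm_norm, inv_mul_cancel₀ hJ.ne'])
  have e1 : {x | inner ℝ (‖e - j w‖⁻¹ • (e - j w)) x = 0} = {x | inner ℝ (e - j w) x = 0} := by
    ext x
    simp only [mem_ofPred_eq, real_inner_smul_left, mul_eq_zero, inv_eq_zero, hJ.ne', false_or]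
  have e2 : ∫ v, |inner ℝ (‖e - j w‖⁻¹ • (e - j w)) v| ∂μ = ‖e - j w‖⁻¹ *
      ∫ v, |inner ℝ e v - (α * inner ℝ (j e₁) v + β * inner ℝ (j e₂) v)| ∂μ := by
    rw [← integral_const_mul]
    congr 1
    funext v
    rw [real_inner_smul_left, abs_mul, abs_of_pos (inv_pos.2 hJ), inner_sub_left, hw, map_add,
      map_smul, map_smul, inner_add_left, real_inner_smul_left, real_inner_smul_left]
  rw [e1, e2, section_eq j he hj hsurj, LinearMap.hausdorffMeasure_image, normDet_Tm j he hj,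
    ENNReal.toReal_mul, ENNReal.toReal_ofReal hJ.le] at hu
  have hsb2 := section_bounds ν hN (Tm j e w) (Tm_low j he hj w) hs0.le hs1 hS1 hS2
  have e3 : ∀ y, Real.exp (-(√(Gk K ρ τ (innerₗ E e) g₁ g₂ g₃ (Tm j e w y))) ^ 2)
      = dens (Hk K ρ τ j e) κ (α * inner ℝ e₁ y + β * inner ℝ e₂ y) y := by
    intro y
    have hG : 0 ≤ Gk K ρ τ (innerₗ E e) g₁ g₂ g₃ (Tm j e w y) := by
      unfold Gk
      have := Fk_nonneg (ρ := ρ) h0 (Tm j e w y)
      positivity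
    rw [Real.sq_sqrt hG]
    have hη : inner ℝ w y = α * inner ℝ e₁ y + β * inner ℝ e₂ y := by
      rw [hw, inner_add_left, real_inner_smul_left, real_inner_smul_left]
    unfold dens Gk Hk
    rw [Tm_apply, hη, norm_sq_add j he hj, hκ]
    set η := α * inner ℝ e₁ y + β * inner ℝ e₂ y
    simp only [innerₗ_apply_apply, map_add, map_smul, z₁, z₂, z₃, hj, hee, smul_eq_mul, mul_zero,
      add_zero, zero_add, mul_one, abs_mul]
    congr 1
    ring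
  simp only [e3] at hsb2
  set a := ∫ y, dens (Hk K ρ τ j e) κ (α * inner ℝ e₁ y + β * inner ℝ e₂ y) y ∂ν
  set h := ∫ v, |inner ℝ e v - (α * inner ℝ (j e₁) v + β * inner ℝ (j e₂) v)| ∂μ
  have hh : 0 ≤ h := integral_nonneg fun v => abs_nonneg _
  set m := (ν (Tm j e w ⁻¹' S)).toReal
  have hm : m * h = 1 := by
    rw [← hu]; field_simp
  obtain ⟨b1, b2⟩ := hsb2
  rw [← hγdef] at b1 b2
  have p1 : 0 < (1 - s) ^ finrank ℝ U := by have : 0 < 1 - s := by linarith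
                                            positivity
  have p2 : 0 < (1 + s) ^ finrank ℝ U := by positivity
  have c1 : (1 - s) ^ finrank ℝ U * (h * a) ≤ γ := by
    have := mul_le_mul_of_nonneg_right b1 hh
    rw [hm] at this
    rw [← div_le_one hγ]
    calc _ = (1 - s) ^ finrank ℝ U * (a / γ) * h := by ring
      _ ≤ 1 := this
  have c2 : γ ≤ (1 + s) ^ finrank ℝ U * (h * a) := by
    have := mul_le_mul_of_nonneg_right b2 hh
    rw [hm] at this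
    rw [← one_le_div hγ]
    calc 1 ≤ (1 + s) ^ finrank ℝ U * (a / γ) * h := this
      _ = _ := by ring
  rw [abs_le]
  constructor
  · by_contra hcon
    push Not at hcon
    have : h * a < γ - θ := by linarith
    nlinarith
  · by_contra hcon
    push Not at hcon
    have : γ + θ < h * a := by linarith
    nlinarith

theorem local_fail {K : Set E} (h0 : (0 : E) ∈ K) (hK : Convex ℝ K) (hs : ∀ x ∈ K, -x ∈ K)
    (ρ : ℝ) {τ : ℝ} (hτ : 0 < τ)
    (j : U →ₗᵢ[ℝ] E) {e : E} (he : ‖e‖ = 1) (hj : ∀ y, inner ℝ e (j y) = 0)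
    (hsurj : ∀ x, inner ℝ e x = 0 → ∃ y, j y = x) {e₁ e₂ : U} (he₁ : ‖e₁‖ = 1) (he₂ : ‖e₂‖ = 1)
    (h₁₂ : inner ℝ e₁ e₂ = 0) :
    ∃ (N : E → ℝ) (c C : ℝ), IsNrm N c C ∧ (∀ x, Fk K ρ x ≤ N x ^ 2) ∧
      (∀ x, N x ^ 2 ≤ Fk K ρ x + 12 * τ * ‖x‖ ^ 2) ∧
      ∃ s : ℝ, 0 < s ∧ ∀ S : Set E, (∀ x, N x < 1 - s → x ∈ S) →
      (∀ x ∈ S, N x < 1 + s) → ¬ Bad (finrank ℝ U) S := by
  set p : U → ℝ := fun y => inner ℝ e₁ y with hp
  set q : U → ℝ := fun y => inner ℝ e₂ y with hq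
  have hpc : Continuous p := by fun_prop
  have hqc : Continuous q := by fun_prop
  have hb : ∀ a : U, ‖a‖ = 1 → ∀ y, |inner ℝ a y| ≤ ‖y‖ := by
    intro a ha y
    have := abs_real_inner_le_norm a y
    rwa [ha, one_mul] at this
  have hbE : ∀ a : E, ‖a‖ = 1 → ∀ y, |inner ℝ a y| ≤ ‖y‖ := by
    intro a ha y
    have := abs_real_inner_le_norm a y
    rwa [ha, one_mul] at this
  have hp1 : ∀ y, |p y| ≤ ‖y‖ := hb e₁ he₁
  have hq1 : ∀ y, |q y| ≤ ‖y‖ := hb e₂ he₂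
  have n2 : ∀ y, |2 * q y| ≤ 2 * ‖y‖ := fun y => by rw [abs_mul, abs_two]; linarith [hq1 y]
  have n3 : ∀ y, |p y + q y| ≤ 2 * ‖y‖ := fun y => by linarith [hp1 y, hq1 y, abs_add_le (p y) (q y)]
  have n4 : ∀ y, |p y - q y| ≤ 2 * ‖y‖ := fun y => by linarith [hp1 y, hq1 y, abs_sub (p y) (q y)]
  have ga := good_Hk h0 hK ρ hτ j he hj (κ := fun y => τ * (|p y + q y| + |p y - q y|))
    (by fun_prop) (fun y => by positivity)
    (fun y => by nlinarith [n3 y, n4 y, norm_nonneg y])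
  have gb := good_Hk h0 hK ρ hτ j he hj (κ := fun y => τ * |2 * q y|)
    (by fun_prop) (fun y => by positivity)
    (fun y => by nlinarith [n2 y, norm_nonneg y])
  have gc := good_Hk h0 hK ρ hτ j he hj (κ := fun y => τ * (|p y + q y| + |p y - q y| + |2 * q y|))
    (by fun_prop) (fun y => by positivity)
    (fun y => by nlinarith [n2 y, n3 y, n4 y, norm_nonneg y])
  have h11 : inner ℝ e₁ e₁ = (1 : ℝ) := by rw [real_inner_self_eq_norm_sq, he₁]; norm_num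
  have h22 : inner ℝ e₂ e₂ = (1 : ℝ) := by rw [real_inner_self_eq_norm_sq, he₂]; norm_num
  have h21 : inner ℝ e₂ e₁ = (0 : ℝ) := by rw [real_inner_comm, h₁₂]
  have hnd := nondeg (Measure.hausdorffMeasure (finrank ℝ U)) hτ hpc hqc hp1 hq1
    (y₁ := (2 : ℝ) • e₁ + e₂) (y₂ := (2 : ℝ) • e₁ - e₂)
    (by simp only [hp, inner_add_right, real_inner_smul_right, h11, h₁₂]; norm_num)
    (by simp only [hq, inner_add_right, real_inner_smul_right, h21, h22]; norm_num)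
    (by simp only [hp, inner_sub_right, real_inner_smul_right, h11, h₁₂]; norm_num)
    (by simp only [hq, inner_sub_right, real_inner_smul_right, h21, h22]; norm_num) ga gb
  set P : E →ₗ[ℝ] ℝ := innerₗ E (j e₁) with hP
  set Q : E →ₗ[ℝ] ℝ := innerₗ E (j e₂) with hQ
  have hPe : P e = 0 := by rw [hP, innerₗ_apply_apply, real_inner_comm, hj]
  have hQe : Q e = 0 := by rw [hQ, innerₗ_apply_apply, real_inner_comm, hj]
  have hPj : ∀ y, P (j y) = p y := fun y => by rw [hP, innerₗ_apply_apply, j.inner_map_map]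
  have hQj : ∀ y, Q (j y) = q y := fun y => by rw [hQ, innerₗ_apply_apply, j.inner_map_map]
  have hP1 : ∀ z, |P z| ≤ ‖z‖ := hbE (j e₁) (by rw [j.norm_map, he₁])
  have hQ1 : ∀ z, |Q z| ≤ ‖z‖ := hbE (j e₂) (by rw [j.norm_map, he₂])
  have key : ∀ g : E →ₗ[ℝ] ℝ, (∀ z, |g z| ≤ 2 * ‖z‖) → ∀ z, |innerₗ E e z * g z| ≤ 2 * ‖z‖ ^ 2 := by
    intro g hg z
    rw [abs_mul, innerₗ_apply_apply]
    calc |inner ℝ e z| * |g z| ≤ ‖z‖ * (2 * ‖z‖) := by
          gcongr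
          · exact hbE e he z
          · exact hg z
      _ = _ := by ring
  have k0 := key 0 (fun z => by simp)
  have k1 := key (P + Q) (fun z => by
    rw [LinearMap.add_apply]; linarith [hP1 z, hQ1 z, abs_add_le (P z) (Q z)])
  have k2 := key (P - Q) (fun z => by
    rw [LinearMap.sub_apply]; linarith [hP1 z, hQ1 z, abs_sub (P z) (Q z)])
  have k3 := key ((2 : ℝ) • Q) (fun z => by
    rw [LinearMap.smul_apply, smul_eq_mul, abs_mul, abs_two]; linarith [hQ1 z])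
  have fin : ∀ g₁ g₂ g₃ : E →ₗ[ℝ] ℝ, (∀ z, |innerₗ E e z * g₁ z| ≤ 2 * ‖z‖ ^ 2) →
      (∀ z, |innerₗ E e z * g₂ z| ≤ 2 * ‖z‖ ^ 2) → (∀ z, |innerₗ E e z * g₃ z| ≤ 2 * ‖z‖ ^ 2) →
      (∀ x, Fk K ρ x ≤ √(Gk K ρ τ (innerₗ E e) g₁ g₂ g₃ x) ^ 2) ∧
      (∀ x, √(Gk K ρ τ (innerₗ E e) g₁ g₂ g₃ x) ^ 2 ≤ Fk K ρ x + 12 * τ * ‖x‖ ^ 2) := by
    intro g₁ g₂ g₃ a1 a2 a3
    have hG : ∀ x, 0 ≤ Gk K ρ τ (innerₗ E e) g₁ g₂ g₃ x := fun x => by
      unfold Gk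
      have := Fk_nonneg (ρ := ρ) h0 x
      positivity
    constructor
    · intro x
      rw [Real.sq_sqrt (hG x)]
      unfold Gk
      exact le_add_of_nonneg_right (by positivity)
    · intro x
      rw [Real.sq_sqrt (hG x)]
      unfold Gk
      nlinarith [a1 x, a2 x, a3 x]
  rcases hnd with h | h | h
  · have hN := Gk_isNrm h0 hK hs ρ hτ k1 k2 k0
    refine ⟨_, _, _, hN, (fin _ _ _ k1 k2 k0).1, (fin _ _ _ k1 k2 k0).2, ?_⟩
    refine case_fail h0 hK hs ρ hτ j he hj hsurj he₁ he₂ (by simp [hPe, hQe]) (by simp [hPe, hQe])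
      (by simp) hN (fun y => by simp [hPj, hQj]) ga h
  · have hN := Gk_isNrm h0 hK hs ρ hτ k0 k0 k3
    refine ⟨_, _, _, hN, (fin _ _ _ k0 k0 k3).1, (fin _ _ _ k0 k0 k3).2, ?_⟩
    refine case_fail h0 hK hs ρ hτ j he hj hsurj he₁ he₂ (by simp) (by simp)
      (by simp [hQe]) hN (fun y => by simp [hQj]) gb h
  · have hN := Gk_isNrm h0 hK hs ρ hτ k1 k2 k3
    refine ⟨_, _, _, hN, (fin _ _ _ k1 k2 k3).1, (fin _ _ _ k1 k2 k3).2, ?_⟩
    refine case_fail h0 hK hs ρ hτ j he hj hsurj he₁ he₂ (by simp [hPe, hQe]) (by simp [hPe, hQe])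
      (by simp [hQe]) hN (fun y => by simp [hPj, hQj]) gc h

end Pool.Agent.MP_2c685a_gt
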