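import Mathlib

/-! The width function of a Hausdorff limit of finite sums of segments is a cosine transform. -/

set_option autoImplicit false

open Set MeasureTheory Filter Topology Metric
open scoped Pointwise NNReal

namespace Pool.Agent.MP_2c685a_gt

variable {E : Type*} [NormedAddCommGroup E] [InnerProductSpace ℝ E]

/-- The support function. -/
noncomputable def hsup (A : Set E) (u : E) : ℝ := sSup ((fun y => inner ℝ u y) '' A)

lemma hsup_great {A : Set E} (hA : IsCompact A) (hne : A.Nonempty) (u : E) :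
    IsGreatest ((fun y => inner ℝ u y) '' A) (hsup A u) :=
  (hA.image (by fun_prop)).isGreatest_sSup (hne.image _)

lemma hsup_add {A B : Set E} (hA : IsCompact A) (hA' : A.Nonempty) (hB : IsCompact B)
    (hB' : B.Nonempty) (u : E) : hsup (A + B) u = hsup A u + hsup B u := by
  obtain ⟨⟨a, ha, ea⟩, ua⟩ := hsup_great hA hA' u
  obtain ⟨⟨b, hb, eb⟩, ub⟩ := hsup_great hB hB' u
  refine IsGreatest.csSup_eq ⟨⟨a + b, add_mem_add ha hb, ?_⟩, ?_⟩
  · simp only [inner_add_right] at ea eb ⊢
    rw [ea, eb]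
  · rintro _ ⟨_, ⟨x, hx, y, hy, rfl⟩, rfl⟩
    simp only [inner_add_right]
    exact add_le_add (ua ⟨x, hx, rfl⟩) (ub ⟨y, hy, rfl⟩)

lemma hsup_segment (a b u : E) :
    hsup (segment ℝ a b) u = max (inner ℝ u a) (inner ℝ u b) := by
  refine IsGreatest.csSup_eq ⟨?_, ?_⟩
  · rcases max_choice (inner ℝ u a) (inner ℝ u b) with h | h <;> rw [h]
    · exact ⟨a, left_mem_segment _ _ _, rfl⟩
    · exact ⟨b, right_mem_segment _ _ _, rfl⟩
  · rintro _ ⟨_, ⟨s, t, hs, ht, hst, rfl⟩, rfl⟩
    simp only [inner_add_right, inner_smul_right]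
    calc s * inner ℝ u a + t * inner ℝ u b
        ≤ s * max (inner ℝ u a) (inner ℝ u b) + t * max (inner ℝ u a) (inner ℝ u b) :=
          add_le_add (mul_le_mul_of_nonneg_left (le_max_left _ _) hs)
            (mul_le_mul_of_nonneg_left (le_max_right _ _) ht)
      _ = _ := by rw [← add_mul, hst, one_mul]

lemma hsup_le (Z Z' : ConvexBody E) (u : E) :
    hsup (Z : Set E) u ≤ hsup (Z' : Set E) u + ‖u‖ * dist Z Z' := by
  obtain ⟨⟨y, hy, e⟩, -⟩ := hsup_great Z.isCompact Z.nonempty u
  obtain ⟨y', hy', e'⟩ := Z'.isCompact.exists_infDist_eq_dist Z'.nonempty y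
  have h1 : infDist y (Z' : Set E) ≤ dist Z Z' :=
    infDist_le_hausdorffDist_of_mem hy ConvexBody.hausdorffEDist_ne_top
  have h2 := (hsup_great Z'.isCompact Z'.nonempty u).2 ⟨y', hy', rfl⟩
  have h3 := real_inner_le_norm u (y - y')
  rw [e', dist_eq_norm] at h1
  rw [inner_sub_right] at h3
  have h4 := mul_le_mul_of_nonneg_left h1 (norm_nonneg u)
  simp only at e h2
  linarith

lemma continuous_hsup (u : E) : Continuous fun Z : ConvexBody E => hsup (Z : Set E) u :=
  (LipschitzWith.of_le_add_mul ‖u‖₊ fun Z Z' => hsup_le Z Z' u).continuous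

variable [FiniteDimensional ℝ E] [MeasurableSpace E] [BorelSpace E]

/-- The width function of `A` is the cosine transform of a measure on the sphere. -/
def WRep (A : Set E) : Prop :=
  ∃ μ : Measure (sphere (0 : E) 1), IsFiniteMeasure μ ∧
    ∀ u : E, ∫ v, |inner ℝ u (v : E)| ∂μ = hsup A u + hsup A (-u)

lemma int_sph (μ : Measure (sphere (0 : E) 1)) [IsFiniteMeasure μ] (u : E) :
    Integrable (fun v : sphere (0 : E) 1 => |inner ℝ u (v : E)|) μ :=
  Continuous.integrable_of_hasCompactSupport (by fun_prop) (HasCompactSupport.of_compactSpace _)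

omit [FiniteDimensional ℝ E] in
lemma wrep_segment (a b : E) : WRep (segment ℝ a b) := by
  have e : ∀ u : E, hsup (segment ℝ a b) u + hsup (segment ℝ a b) (-u) = |inner ℝ u (b - a)| := by
    intro u
    rw [hsup_segment, hsup_segment, inner_neg_left, inner_neg_left, inner_sub_right, max_neg_neg,
      ← sub_eq_add_neg, max_sub_min_eq_abs]
  by_cases h : b - a = 0
  · exact ⟨0, inferInstance, fun u => by rw [e, h]; simp⟩
  · have h1 : ‖b - a‖ ≠ 0 := norm_ne_zero_iff.2 h
    refine ⟨‖b - a‖₊ • Measure.dirac ⟨‖b - a‖⁻¹ • (b - a), by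
      rw [mem_sphere_zero_iff_norm, norm_smul, norm_inv, norm_norm, inv_mul_cancel₀ h1]⟩,
      inferInstance, fun u => ?_⟩
    rw [e, integral_smul_nnreal_measure, integral_dirac, inner_smul_right, abs_mul, abs_inv,
      abs_norm, NNReal.smul_def, coe_nnnorm, smul_eq_mul, mul_inv_cancel_left₀ h1]

lemma wrep_sum {ι : Type*} (s : Finset ι) (a b : ι → E) :
    WRep (∑ i ∈ s, segment ℝ (a i) (b i)) := by
  refine (Finset.sum_induction _ (fun A : Set E => IsCompact A ∧ A.Nonempty ∧ WRep A)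
    ?_ ?_ ?_).2.2
  · rintro A B ⟨a1, a2, μ, _, a3⟩ ⟨b1, b2, ν, _, b3⟩
    refine ⟨a1.add b1, a2.add b2, μ + ν, inferInstance, fun u => ?_⟩
    rw [integral_add_measure (int_sph μ u) (int_sph ν u), a3, b3, hsup_add a1 a2 b1 b2,
      hsup_add a1 a2 b1 b2]
    ring
  · refine ⟨isCompact_singleton, singleton_nonempty _, ?_⟩
    have := wrep_segment (0 : E) 0
    rwa [segment_same] at this
  · intro i _
    refine ⟨?_, ⟨_, left_mem_segment _ _ _⟩, wrep_segment _ _⟩
    rw [segment_eq_image]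
    exact isCompact_Icc.image (by fun_prop)

lemma mass_le (μ : Measure (sphere (0 : E) 1)) [IsFiniteMeasure μ] :
    μ.real univ ≤ ∑ j, ∫ v, |inner ℝ (stdOrthonormalBasis ℝ E j) (v : E)| ∂μ := by
  rw [← integral_finsetSum _ fun j _ => int_sph μ _]
  have := integral_mono (μ := μ) (integrable_const (1 : ℝ))
    (integrable_finsetSum Finset.univ fun j _ => int_sph μ (stdOrthonormalBasis ℝ E j))
    fun v => by
      have h1 := mem_sphere_zero_iff_norm.1 v.2
      rw [← (stdOrthonormalBasis ℝ E).sum_repr' (v : E)] at h1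
      refine h1.ge.trans ((norm_sum_le _ _).trans_eq (Finset.sum_congr rfl fun j _ => ?_))
      rw [norm_smul, (stdOrthonormalBasis ℝ E).orthonormal.1 j, mul_one, Real.norm_eq_abs]
  rwa [integral_const, smul_eq_mul, mul_one] at this

lemma isClosed_wrep : IsClosed {Z : ConvexBody E | WRep (Z : Set E)} := by
  refine IsSeqClosed.isClosed fun Z Z₀ hZ hl => ?_
  choose μ hμ h using hZ
  have hW : ∀ u : E, Tendsto (fun k => ∫ v, |inner ℝ u (v : E)| ∂μ k) atTop
      (𝓝 (hsup (Z₀ : Set E) u + hsup (Z₀ : Set E) (-u))) := fun u => by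
    simp only [h]
    exact (((continuous_hsup u).add (continuous_hsup (-u))).tendsto Z₀).comp hl
  obtain ⟨C, hC⟩ := (tendsto_finsetSum Finset.univ
    fun j _ => hW (stdOrthonormalBasis ℝ E j)).bddAbove_range
  let ν : ℕ → FiniteMeasure (sphere (0 : E) 1) := fun k => ⟨μ k, hμ k⟩
  have hν : ∀ k, (ν k).mass ≤ C.toNNReal := fun k =>
    NNReal.coe_le_coe.1 (((mass_le (μ k)).trans (hC ⟨k, rfl⟩)).trans (Real.le_coe_toNNReal C))
  obtain ⟨ν₀, -, h0⟩ := (isCompact_setOfPred_finiteMeasure_le_of_compactSpace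
    (sphere (0 : E) 1) C.toNNReal).ultrafilter_le_nhds' ((hyperfilter ℕ).map ν)
    (Filter.mem_map.2 (univ_mem' hν))
  refine ⟨ν₀, inferInstance, fun u => ?_⟩
  have h1 := (FiniteMeasure.continuous_integral_boundedContinuousFunction
    (BoundedContinuousFunction.mkOfCompact
      ⟨fun v : sphere (0 : E) 1 => |inner ℝ u (v : E)|, by fun_prop⟩)).tendsto ν₀
  exact tendsto_nhds_unique (h1.comp h0) ((hW u).mono_left Nat.hyperfilter_le_atTop)

end Pool.Agent.MP_2c685a_gt
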