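import Mathlib
import Pool.Agent.MP_2c685a_gt.Final

set_option autoImplicit false

open Set MeasureTheory Module Filter Topology

namespace Pool.Agent.MP_2c685a_gt

variable {E : Type*} [NormedAddCommGroup E] [InnerProductSpace ℝ E] [FiniteDimensional ℝ E]
  [MeasurableSpace E] [BorelSpace E]
variable {U : Type*} [NormedAddCommGroup U] [InnerProductSpace ℝ U]
  [FiniteDimensional ℝ U] [MeasurableSpace U] [BorelSpace U]

theorem residual_not_bad (j : U →ₗᵢ[ℝ] E) {e : E} (he : ‖e‖ = 1) (hj : ∀ y, inner ℝ e (j y) = 0)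
    (hsurj : ∀ x, inner ℝ e x = 0 → ∃ y, j y = x) {e₁ e₂ : U} (he₁ : ‖e₁‖ = 1) (he₂ : ‖e₂‖ = 1)
    (h₁₂ : inner ℝ e₁ e₂ = 0) :
    ∀ᶠ K in residual {K : ConvexBody E // ∀ x ∈ (K : Set E), -x ∈ (K : Set E)},
      ¬ Bad (finrank ℝ U) (K.1 : Set E) := by
  refine mem_of_superset (residual_of_dense_open isOpen_interior ?_) interior_subset
  rw [Metric.dense_iff]
  rintro ⟨K, hs⟩ r hr
  have h0 : (0 : E) ∈ (K : Set E) := K.zero_mem_of_symmetric hs
  obtain ⟨R, hR⟩ := isBounded_iff_forall_norm_le.1 K.isBounded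
  have hR0 : 0 ≤ R := by simpa using hR 0 h0
  set ρ := min 1 (r / (2 * (2 + R))) with hρ
  have hρ0 : 0 < ρ := lt_min one_pos (by positivity)
  have hρ1 : ρ ≤ 1 := min_le_left _ _
  have hρ2 : ρ * (1 + ρ + R) ≤ r / 2 := by
    have h1 : ρ ≤ r / (2 * (2 + R)) := min_le_right _ _
    rw [le_div_iff₀ (by positivity)] at h1
    nlinarith
  set l := r / (2 * (R + 1)) with hl
  have hl0 : 0 < l := by positivity
  have hlR : l * R ≤ r / 2 := by
    rw [hl, div_mul_eq_mul_div, div_le_div_iff₀ (by positivity) (by positivity)]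
    nlinarith
  set τ := l / (12 * (R ^ 2 + 1)) with hτ
  have hτ0 : 0 < τ := by positivity
  have hτR : 12 * τ * R ^ 2 ≤ l := by
    have : 12 * τ * (R ^ 2 + 1) = l := by rw [hτ]; field_simp
    nlinarith
  obtain ⟨N, c, C, hN, hN1, hN2, s, hs0, hbad⟩ :=
    local_fail h0 K.convex hs ρ hτ0 j he hj hsurj he₁ he₂ h₁₂
  let K' : ConvexBody E := ⟨{x | N x ≤ 1}, hN.convex_le, hN.isCompact_le,
    ⟨0, by simp [hN.zero]⟩⟩
  have hK' : (K' : Set E) = {x | N x ≤ 1} := rfl
  have hs' : ∀ x ∈ (K' : Set E), -x ∈ (K' : Set E) := by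
    intro x hx
    rw [hK'] at hx ⊢
    simpa [hN.neg] using hx
  refine ⟨⟨K', hs'⟩, ?_, ?_⟩
  · rw [Metric.mem_ball, Subtype.dist_eq, ← ConvexBody.hausdorffDist_coe]
    refine lt_of_le_of_lt (Metric.hausdorffDist_le_of_mem_dist (r := r / 2) (by positivity) ?_ ?_)
      (by linarith)
    · intro x hx
      have hx1 : N x ≤ 1 := hx
      have : Fk K ρ x ≤ 1 := le_trans (hN1 x) (by nlinarith [hN.nonneg x])
      obtain ⟨k, hk, hd⟩ := near_of_Fk_le_one h0 K.convex hρ0 hR this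
      exact ⟨k, hk, by rw [dist_eq_norm]; linarith⟩
    · intro k hk
      have h1 : N k ≤ 1 + l := by
        apply le_of_sq_le_sq _ (by positivity)
        have a1 := hN2 k
        have a2 := Fk_le_one (ρ := ρ) hk
        have a3 : ‖k‖ ^ 2 ≤ R ^ 2 := by gcongr; exact hR k hk
        have a4 : 12 * τ * ‖k‖ ^ 2 ≤ 12 * τ * R ^ 2 := by gcongr
        nlinarith
      have hl1 : 0 < 1 + l := by positivity
      refine ⟨(1 + l)⁻¹ • k, ?_, ?_⟩
      · change N ((1 + l)⁻¹ • k) ≤ 1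
        rw [hN.smul_eq (inv_pos.2 hl1), inv_mul_le_iff₀ hl1, mul_one]
        exact h1
      · have e1 : k - (1 + l)⁻¹ • k = (l * (1 + l)⁻¹) • k := by
          have : l * (1 + l)⁻¹ = 1 - (1 + l)⁻¹ := by field_simp; ring
          rw [this, sub_smul, one_smul]
        rw [dist_eq_norm, e1, norm_smul, Real.norm_of_nonneg (by positivity)]
        have a1 : (1 + l)⁻¹ ≤ 1 := inv_le_one_of_one_le₀ (by linarith)
        calc l * (1 + l)⁻¹ * ‖k‖ ≤ l * 1 * R := by gcongr; exact hR k hk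
          _ ≤ r / 2 := by linarith
  · rw [mem_interior_iff_mem_nhds, Metric.mem_nhds_iff]
    have hη : 0 < s / (|C| + 1) := by positivity
    have hCη : C * (s / (|C| + 1)) < s := by
      rw [← mul_div_assoc, div_lt_iff₀ (by positivity)]
      nlinarith [le_abs_self C]
    refine ⟨s / (|C| + 1), hη, ?_⟩
    rintro ⟨K'', hs''⟩ hd
    rw [Metric.mem_ball, Subtype.dist_eq, ← ConvexBody.hausdorffDist_coe] at hd
    refine hbad K'' (fun x hx => ?_) (fun x hx => ?_)
    · refine subset_of_hausdorff hN K''.convex K''.isClosed K''.nonempty hη.le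
        (fun z hz => ?_) (by linarith)
      obtain ⟨k, hk, h⟩ := Metric.exists_dist_lt_of_hausdorffDist_lt' (show z ∈ (K' : Set E) from hz)
        hd ConvexBody.hausdorffEDist_ne_top
      exact ⟨k, hk, by rwa [dist_comm]⟩
    · obtain ⟨k, hk, h⟩ := Metric.exists_dist_lt_of_hausdorffDist_lt hx hd
        ConvexBody.hausdorffEDist_ne_top
      have h1 : N k ≤ 1 := hk
      have h2 := hN.add k (x - k)
      have h3 := hN.up (x - k)
      rw [add_sub_cancel] at h2
      rw [dist_eq_norm] at h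
      have h4 : C * ‖x - k‖ ≤ |C| * (s / (|C| + 1)) := by
        calc C * ‖x - k‖ ≤ |C| * ‖x - k‖ := by gcongr; exact le_abs_self C
          _ ≤ _ := by gcongr
      have h5 : |C| * (s / (|C| + 1)) < s := by
        rw [← mul_div_assoc, div_lt_iff₀ (by positivity)]
        nlinarith
      linarith

theorem main (n : ℕ) (hn : 3 ≤ n) :
    ∀ᶠ K in residual {K : ConvexBody (EuclideanSpace ℝ (Fin n)) //
        ∀ x ∈ (K : Set (EuclideanSpace ℝ (Fin n))), -x ∈ (K : Set (EuclideanSpace ℝ (Fin n)))},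
      ¬ Bad ((n : ℝ) - 1) (K.1 : Set (EuclideanSpace ℝ (Fin n))) := by
  obtain ⟨m, rfl⟩ : ∃ m, n = m + 3 := ⟨n - 3, by omega⟩
  let e : EuclideanSpace ℝ (Fin (m + 3)) := EuclideanSpace.single 0 1
  have he : ‖e‖ = 1 := by simp [e]
  have he0 : e ≠ 0 := by
    intro h
    rw [h, norm_zero] at he
    exact zero_ne_one he
  have : Fact (finrank ℝ (EuclideanSpace ℝ (Fin (m + 3))) = (m + 2) + 1) := ⟨by simp⟩
  have hd : finrank ℝ (ℝ ∙ e)ᗮ = m + 2 := Submodule.finrank_orthogonal_span_singleton he0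
  have m1 : (EuclideanSpace.single 1 1 : EuclideanSpace ℝ (Fin (m + 3))) ∈ (ℝ ∙ e)ᗮ := by
    rw [Submodule.mem_orthogonal_singleton_iff_inner_right]
    simp [e, EuclideanSpace.inner_single_left]
  have h20 : (2 : Fin (m + 3)) ≠ 0 := by
    intro h
    have := congrArg Fin.val h
    simp [Nat.mod_eq_of_lt (show 2 < m + 3 by omega)] at this
  have h21 : (1 : Fin (m + 3)) ≠ 2 := by
    intro h
    have := congrArg Fin.val h
    simp [Nat.mod_eq_of_lt (show 2 < m + 3 by omega)] at this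
  have m2 : (EuclideanSpace.single 2 1 : EuclideanSpace ℝ (Fin (m + 3))) ∈ (ℝ ∙ e)ᗮ := by
    rw [Submodule.mem_orthogonal_singleton_iff_inner_right]
    simp [e, EuclideanSpace.inner_single_left, h20.symm]
  have h := residual_not_bad (U := (ℝ ∙ e)ᗮ) (ℝ ∙ e)ᗮ.subtypeₗᵢ he
    (fun y => Submodule.mem_orthogonal_singleton_iff_inner_right.1 y.2)
    (fun x hx => ⟨⟨x, Submodule.mem_orthogonal_singleton_iff_inner_right.2 hx⟩, rfl⟩)
    (e₁ := ⟨_, m1⟩) (e₂ := ⟨_, m2⟩) (by simp) (by simp)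
    (by simp [EuclideanSpace.inner_single_left, h21])
  rw [hd] at h
  have e2 : ((m + 3 : ℕ) : ℝ) - 1 = ((m + 2 : ℕ) : ℝ) := by push_cast; ring
  rw [e2]
  exact h

end Pool.Agent.MP_2c685a_gt
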